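import Mathlib

/-!
Arithmetic of the parameters.
-/

set_option autoImplicit false

namespace Pool.Agent.W980.Esy

lemma U_large {t G k : ℕ} (hG4 : (8 * (G + 1)) ^ 4 ≤ 2 ^ t) (hG : 512 * (k + 1) ^ 4 ≤ G + 1) :
    32 * (k + 1) ^ 2 ≤ 2 ^ (t / 8) := by
  obtain ⟨U, hU⟩ : ∃ U, U = 2 ^ (t / 8) := ⟨_, rfl⟩
  rw [← hU]
  have h1 : 2 ^ t < ((2 * U) ^ 2) ^ 4 := by
    have h2 : ((2 * U) ^ 2) ^ 4 = 2 ^ (8 * (t / 8 + 1)) := by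
      rw [hU, ← pow_mul, ← pow_succ', ← pow_mul]
      congr 1
      ring
    rw [h2]
    apply Nat.pow_lt_pow_right (by norm_num)
    omega
  have h3 : 8 * (G + 1) < (2 * U) ^ 2 := by
    by_contra hcon
    push Not at hcon
    have := Nat.pow_le_pow_left hcon 4
    omega
  have h4 : (32 * (k + 1) ^ 2) ^ 2 < U ^ 2 := by
    calc (32 * (k + 1) ^ 2) ^ 2 = 2 * (512 * (k + 1) ^ 4) := by ring
      _ ≤ 2 * (G + 1) := Nat.mul_le_mul_left _ hG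
      _ < U ^ 2 := by
        have : (2 * U) ^ 2 = 4 * U ^ 2 := by ring
        omega
  exact (lt_of_pow_lt_pow_left₀ 2 (Nat.zero_le _) h4).le

lemma x_pow {t κ G : ℕ} (ht : 32 ≤ t) (hG : 2 * (G + 2) ≤ t * κ) :
    ((4 : ℝ) * ((2 : ℝ) ^ (t / 8)) ^ 2 / 2 ^ t) ^ κ ≤ 1 / 2 ^ (G + 2) := by
  obtain ⟨x, hx⟩ : ∃ x : ℝ, x = (4 : ℝ) * ((2 : ℝ) ^ (t / 8)) ^ 2 / 2 ^ t := ⟨_, rfl⟩
  rw [← hx]
  have hx0 : 0 ≤ x := by rw [hx]; positivity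
  have h1 : x ^ 2 ≤ 1 / 2 ^ t := by
    rw [hx, div_pow, div_le_div_iff₀ (by positivity) (by positivity), one_mul]
    have h2 : (4 * ((2 : ℝ) ^ (t / 8)) ^ 2) ^ 2 ≤ 2 ^ t := by
      have h3 : (4 * ((2 : ℝ) ^ (t / 8)) ^ 2) ^ 2 = 2 ^ (4 + 4 * (t / 8)) := by
        rw [pow_add, pow_mul']
        ring
      rw [h3]
      apply pow_le_pow_right₀ (by norm_num)
      omega
    calc (4 * ((2 : ℝ) ^ (t / 8)) ^ 2) ^ 2 * 2 ^ t ≤ 2 ^ t * 2 ^ t :=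
          mul_le_mul_of_nonneg_right h2 (by positivity)
      _ = _ := by ring
  have h4 : (x ^ κ) ^ 2 ≤ (1 / 2 ^ (G + 2)) ^ 2 := by
    calc (x ^ κ) ^ 2 = (x ^ 2) ^ κ := by rw [← pow_mul, ← pow_mul, mul_comm]
      _ ≤ (1 / 2 ^ t) ^ κ := pow_le_pow_left₀ (by positivity) h1 κ
      _ = 1 / 2 ^ (t * κ) := by rw [div_pow, one_pow, ← pow_mul]
      _ ≤ 1 / 2 ^ (2 * (G + 2)) := by
          apply div_le_div_of_nonneg_left (by norm_num) (by positivity)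
          exact pow_le_pow_right₀ (by norm_num) hG
      _ = _ := by rw [div_pow, one_pow, ← pow_mul, mul_comm 2]
  exact (pow_le_pow_iff_left₀ (by positivity) (by positivity) two_ne_zero).1 h4

lemma small {t κ G n g k m P : ℕ} {NN : ℝ} (hNN : 0 < NN) (ht : 32 ≤ t)
    (hG : 2 * (G + 2) ≤ t * κ) (hmn : m * (2 * t + 1) ≤ n) (hm : 1 ≤ m)
    (hGe : g + 2 * k + 4 * n + 20 ≤ G) (hP : P ≤ 2 ^ n) :
    ((((2 ^ (k + 1) * 2 ^ (k + 1) + (2 ^ (k + 1) * P + 2 ^ (k + 1)) : ℕ) : ℝ)) +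
      ((2 ^ (k + 1) * (2 ^ g * 2) : ℕ) : ℝ)) *
        ((NN * (4 / 2 ^ t)) / (NN / ((2 : ℝ) ^ (t / 8)) ^ 2)) ^ κ +
      (1 / (NN / ((2 : ℝ) ^ (t / 8)) ^ 2)) * (NN * ((1 / (1 / ((2 : ℝ) ^ t) ^ 3 / 2)) ^ m *
        (((2 ^ (k + 1) * (2 ^ g * 2) : ℕ) : ℝ) *
        ((NN * (4 / 2 ^ t)) / (NN / ((2 : ℝ) ^ (t / 8)) ^ 2)) ^ κ))) < 1 / 3 := by
  have e1 : (NN * (4 / 2 ^ t)) / (NN / ((2 : ℝ) ^ (t / 8)) ^ 2) =
      (4 : ℝ) * ((2 : ℝ) ^ (t / 8)) ^ 2 / 2 ^ t := by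
    field_simp
  rw [e1]
  obtain ⟨ρ, hρ⟩ : ∃ ρ : ℝ, ρ = ((4 : ℝ) * ((2 : ℝ) ^ (t / 8)) ^ 2 / 2 ^ t) ^ κ := ⟨_, rfl⟩
  have hρ1 : ρ ≤ 1 / 2 ^ (G + 2) := by rw [hρ]; exact x_pow ht hG
  have hρ0 : 0 ≤ ρ := by rw [hρ]; positivity
  rw [← hρ]
  have h1 : (((2 ^ (k + 1) * 2 ^ (k + 1) + (2 ^ (k + 1) * P + 2 ^ (k + 1)) : ℕ) : ℝ)) +
      ((2 ^ (k + 1) * (2 ^ g * 2) : ℕ) : ℝ) ≤ 2 ^ (g + 2 * k + n + 4) := by
    have h2 : 2 ^ (k + 1) * 2 ^ (k + 1) + (2 ^ (k + 1) * P + 2 ^ (k + 1)) +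
        2 ^ (k + 1) * (2 ^ g * 2) ≤ 2 ^ (g + 2 * k + n + 4) := by
      have a1 : 2 ^ (k + 1) * 2 ^ (k + 1) ≤ 2 ^ (g + 2 * k + n + 2) := by
        rw [← pow_add]; exact Nat.pow_le_pow_right (by norm_num) (by omega)
      have a2 : 2 ^ (k + 1) * P ≤ 2 ^ (g + 2 * k + n + 2) := by
        refine (Nat.mul_le_mul_left _ hP).trans ?_
        rw [← pow_add]; exact Nat.pow_le_pow_right (by norm_num) (by omega)
      have a3 : 2 ^ (k + 1) ≤ 2 ^ (g + 2 * k + n + 2) :=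
        Nat.pow_le_pow_right (by norm_num) (by omega)
      have a4 : 2 ^ (k + 1) * (2 ^ g * 2) ≤ 2 ^ (g + 2 * k + n + 2) := by
        rw [← pow_succ, ← pow_add]; exact Nat.pow_le_pow_right (by norm_num) (by omega)
      have a5 : 2 ^ (g + 2 * k + n + 4) = 4 * 2 ^ (g + 2 * k + n + 2) := by
        rw [pow_add 2 (g + 2 * k + n) 4, pow_add 2 (g + 2 * k + n) 2]; ring
      omega
    exact_mod_cast h2
  have h3 : ((2 ^ (k + 1) * (2 ^ g * 2) : ℕ) : ℝ) ≤ 2 ^ (g + k + 2) := by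
    have : 2 ^ (k + 1) * (2 ^ g * 2) ≤ 2 ^ (g + k + 2) := by
      rw [← pow_succ, ← pow_add]; exact Nat.pow_le_pow_right (by norm_num) (by omega)
    exact_mod_cast this
  have h4 : 1 / (NN / ((2 : ℝ) ^ (t / 8)) ^ 2) * NN ≤ 2 ^ n := by
    have e2 : 1 / (NN / ((2 : ℝ) ^ (t / 8)) ^ 2) * NN = 2 ^ (t / 8 * 2) := by
      rw [pow_mul]; field_simp
    rw [e2]
    apply pow_le_pow_right₀ (by norm_num)
    have : 1 * (2 * t + 1) ≤ m * (2 * t + 1) := Nat.mul_le_mul_right _ hm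
    omega
  have h5 : (1 / (1 / ((2 : ℝ) ^ t) ^ 3 / 2)) ^ m ≤ 2 ^ (2 * n) := by
    have e3 : (1 / (1 / ((2 : ℝ) ^ t) ^ 3 / 2)) = 2 ^ (3 * t + 1) := by
      rw [pow_succ (2 : ℝ) (3 * t), pow_mul' (2 : ℝ) 3 t]
      field_simp
    rw [e3, ← pow_mul]
    apply pow_le_pow_right₀ (by norm_num)
    calc (3 * t + 1) * m ≤ (2 * (2 * t + 1)) * m := Nat.mul_le_mul_right _ (by omega)
      _ = 2 * (m * (2 * t + 1)) := by ring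
      _ ≤ 2 * n := Nat.mul_le_mul_left _ hmn
  have h6 : (2 : ℝ) ^ (g + 2 * k + n + 4) * (1 / 2 ^ (G + 2)) ≤ 1 / 2 ^ 10 := by
    rw [mul_one_div, div_le_div_iff₀ (by positivity) (by positivity), one_mul, ← pow_add]
    exact pow_le_pow_right₀ (by norm_num) (by omega)
  have h7 : (2 : ℝ) ^ n * (2 ^ (2 * n) * (2 ^ (g + k + 2) * (1 / 2 ^ (G + 2)))) ≤ 1 / 2 ^ 10 := by
    have e4 : (2 : ℝ) ^ n * (2 ^ (2 * n) * (2 ^ (g + k + 2) * (1 / 2 ^ (G + 2)))) =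
        2 ^ (n + 2 * n + (g + k + 2)) / 2 ^ (G + 2) := by
      rw [pow_add, pow_add]; ring
    rw [e4, div_le_div_iff₀ (by positivity) (by positivity), one_mul, ← pow_add]
    exact pow_le_pow_right₀ (by norm_num) (by omega)
  have h8 : ((((2 ^ (k + 1) * 2 ^ (k + 1) + (2 ^ (k + 1) * P + 2 ^ (k + 1)) : ℕ) : ℝ)) +
      ((2 ^ (k + 1) * (2 ^ g * 2) : ℕ) : ℝ)) * ρ ≤ 1 / 2 ^ 10 := by
    refine le_trans (mul_le_mul h1 hρ1 hρ0 (by positivity)) h6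
  have h9 : (1 / (NN / ((2 : ℝ) ^ (t / 8)) ^ 2)) * (NN * ((1 / (1 / ((2 : ℝ) ^ t) ^ 3 / 2)) ^ m *
        (((2 ^ (k + 1) * (2 ^ g * 2) : ℕ) : ℝ) * ρ))) ≤ 1 / 2 ^ 10 := by
    refine le_trans ?_ h7
    rw [← mul_assoc]
    apply mul_le_mul h4 _ (by positivity) (by positivity)
    apply mul_le_mul h5 _ (by positivity) (by positivity)
    exact mul_le_mul h3 hρ1 hρ0 (by positivity)
  have h10 : (1 : ℝ) / 2 ^ 10 + 1 / 2 ^ 10 < 1 / 3 := by norm_num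
  linarith

lemma fin_small {t k : ℕ} {NN : ℝ} (hNN : 0 < NN) (hU : 32 * (k + 1) ^ 2 ≤ 2 ^ (t / 8)) :
    k * (4 * (NN / ((2 : ℝ) ^ (t / 8)) ^ 2) + 2 * (2 * NN / (2 : ℝ) ^ (t / 8))) +
      (k * k) * (2 * (NN / ((2 : ℝ) ^ (t / 8)) ^ 2)) + NN / ((2 : ℝ) ^ (t / 8)) ^ 2 < NN / 4 := by
  obtain ⟨U, hUd⟩ : ∃ U : ℝ, U = (2 : ℝ) ^ (t / 8) := ⟨_, rfl⟩
  have hU' : 32 * ((k : ℝ) + 1) ^ 2 ≤ U := by rw [hUd]; exact_mod_cast hU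
  rw [← hUd]
  have hk : (0 : ℝ) ≤ k := Nat.cast_nonneg k
  have hU0 : 0 < U := by nlinarith
  have e1 : k * (4 * (NN / U ^ 2) + 2 * (2 * NN / U)) + (k * k) * (2 * (NN / U ^ 2)) + NN / U ^ 2 =
      NN * ((k * (4 + 4 * U) + 2 * (k * k) + 1) / U ^ 2) := by
    field_simp
    ring
  rw [e1]
  have h1 : (k * (4 + 4 * U) + 2 * (k * k) + 1) / U ^ 2 < 1 / 4 := by
    rw [div_lt_div_iff₀ (by positivity) (by norm_num)]
    have h2 : 32 * ((k : ℝ) + 1) ^ 2 * U ≤ U * U := mul_le_mul_of_nonneg_right hU' hU0.le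
    have h3 : (32 : ℝ) ≤ U := by nlinarith
    have h4 : (k : ℝ) * U ≤ ((k : ℝ) + 1) ^ 2 * U :=
      mul_le_mul_of_nonneg_right (by nlinarith) hU0.le
    have h5 : ((k : ℝ) + 1) ^ 2 * 32 ≤ ((k : ℝ) + 1) ^ 2 * U :=
      mul_le_mul_of_nonneg_left h3 (by positivity)
    nlinarith
  calc NN * ((k * (4 + 4 * U) + 2 * (k * k) + 1) / U ^ 2) < NN * (1 / 4) :=
        mul_lt_mul_of_pos_left h1 hNN
    _ = _ := by ring

/-- The logarithm of the number of bits. -/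
lemma log_G {n g k : ℕ} (hn : 2 ≤ n) :
    Real.log ((n : ℝ) + ((512 * (n + g + k + 1) ^ 4 : ℕ) : ℝ)) ≤
      16 * Real.log ((n : ℝ) + ((g + k : ℕ) : ℝ)) := by
  obtain ⟨a, ha⟩ : ∃ a, a = n + g + k := ⟨_, rfl⟩
  have ha2 : 2 ≤ a := by omega
  have h1 : n + 512 * (n + g + k + 1) ^ 4 ≤ a ^ 16 := by
    rw [← ha]
    have h2 : 2 * (a + 1) ≤ 3 * a := by omega
    have h3 : (2 * (a + 1)) ^ 4 ≤ (3 * a) ^ 4 := Nat.pow_le_pow_left h2 4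
    have h4 : 16 * (a + 1) ^ 4 ≤ 81 * a ^ 4 := by
      calc 16 * (a + 1) ^ 4 = (2 * (a + 1)) ^ 4 := by ring
        _ ≤ (3 * a) ^ 4 := h3
        _ = _ := by ring
    have h5 : 2 ^ 12 ≤ a ^ 12 := Nat.pow_le_pow_left ha2 12
    have h6 : n ≤ a ^ 4 := by
      calc n ≤ a := by omega
        _ ≤ a ^ 4 := Nat.le_self_pow (by norm_num) a
    calc n + 512 * (a + 1) ^ 4 = n + 32 * (16 * (a + 1) ^ 4) := by ring
      _ ≤ a ^ 4 + 32 * (81 * a ^ 4) := Nat.add_le_add h6 (Nat.mul_le_mul_left _ h4)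
      _ = 2593 * a ^ 4 := by ring
      _ ≤ 2 ^ 12 * a ^ 4 := Nat.mul_le_mul_right _ (by norm_num)
      _ ≤ a ^ 12 * a ^ 4 := Nat.mul_le_mul_right _ h5
      _ = a ^ 16 := by ring
  have h2 : (n : ℝ) + ((512 * (n + g + k + 1) ^ 4 : ℕ) : ℝ) ≤ (a : ℝ) ^ 16 := by exact_mod_cast h1
  have h3 : (n : ℝ) + ((g + k : ℕ) : ℝ) = a := by rw [ha]; push_cast; ring
  rw [h3]
  calc _ ≤ Real.log ((a : ℝ) ^ 16) := by
        apply Real.log_le_log _ h2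
        have : (2 : ℝ) ≤ n := by exact_mod_cast hn
        positivity
    _ = _ := by rw [Real.log_pow]; norm_num

end Pool.Agent.W980.Esy
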