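import Mathlib
import Pool.Agent.W964.Wd.Machine

/-!
Parallel Turing reductions to disjoint pairs.
-/

set_option autoImplicit false

namespace Pool.Agent.W980.Esy

open Pool.Agent.W964.Wd

/-- A parallel Turing reduction for inputs whose bits are indexed by `J`, with `P` processors,
which asks an oracle questions. A question is a string of `P` words of an arbitrary set `W`.
`z : List Bool` is the list of the answers received so far:

* when the list of the answers is `z`, the ideal parallel random access machine `mach z` (whose
  processors know `z`, the programs may be different for different `z`) works on the input, and
  then the word `p` of the next question is `ask z p q`, where `q` is the state of the processor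
  `p`;
* when all questions have been answered, the machine `mach z` accepts or rejects the input. -/
structure Reduction (J W : Type) (P : ℕ) where
  mach : List Bool → Machine Bool J P
  ask : (z : List Bool) → Fin P → (mach z).Q → W

namespace Reduction

variable {J W : Type} {P : ℕ}

/-- The question asked on the input `x` after the answers `z`, when the machines make `T`
steps. -/
noncomputable def question (R : Reduction J W P) (T : ℕ) (z : List Bool) (x : J → Bool) :
    Fin P → W := fun p => R.ask z p (((R.mach z).run x T).1 p)

open Classical in
/-- The list of the first `i` answers on the input `x` when the oracle is the set `S`. -/
noncomputable def answers (R : Reduction J W P) (T : ℕ) (S : Set (Fin P → W)) (x : J → Bool) :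
    ℕ → List Bool
  | 0 => []
  | i + 1 => answers R T S x i ++ [decide (R.question T (answers R T S x i) x ∈ S)]

/-- The value computed on the input `x` with `k` questions to the oracle `S`. -/
noncomputable def value (R : Reduction J W P) (T k : ℕ) (S : Set (Fin P → W)) (x : J → Bool) :
    Bool := (R.mach (R.answers T S x k)).answer T x

/-- All lists of cells searched by the machines have length at most `K`. -/
def Lists (R : Reduction J W P) (K : ℕ) : Prop := ∀ z, (R.mach z).Lists K

end Reduction

/-- The set `A` of strings of `P` words has proofs of `g` bits which are checked by ideal parallel
machines with `P'` processors in `T` steps, searching lists of length at most `K`: there are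
machines `V π`, one for each proof `π`, such that a string is in `A` if and only if some `V π`
accepts it. -/
def HasProofs {W : Type} {P : ℕ} (P' T g K : ℕ) (A : Set (Fin P → W)) : Prop :=
  ∃ V : (Fin g → Bool) → Machine W (Fin P) P', (∀ π, (V π).Lists K) ∧
    ∀ y, y ∈ A ↔ ∃ π, (V π).answer T y = true

end Pool.Agent.W980.Esy
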