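import Mathlib
import Pool.Agent.W964.Pram.Ip.Weight

/-!
Two runs of a reduction to a disjoint pair: the combinatorial core.
-/

set_option autoImplicit false

namespace Pool.Agent.W980.Esy

open Finset H568R2 H592R3 Pool.Agent.W964.Pram

section Core

variable {m r N : ℕ}

/-- Planting. -/
abbrev pl (s : Fin m → Fin r → Fin m) (a : Fin m → Fin N)
    (X : (Fin m × (Fin r → Fin N)) → Bool) : (Fin m × (Fin r → Fin N)) → Bool :=
  plant (vr s a) univ X

lemma pl_comm (s : Fin m → Fin r → Fin m) (a b : Fin m → Fin N)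
    (X : (Fin m × (Fin r → Fin N)) → Bool) : pl s a (pl s b X) = pl s b (pl s a X) := by
  funext i
  rw [Bool.eq_iff_iff]
  unfold pl
  rw [plant_true, plant_true, plant_true, plant_true]
  exact or_left_comm

open Classical in
/-- The indicator of a proposition. -/
noncomputable def ind (p : Prop) : ℝ := if p then 1 else 0

lemma ind_nonneg (p : Prop) : 0 ≤ ind p := by
  unfold ind; split_ifs <;> norm_num

lemma ind_le_one (p : Prop) : ind p ≤ 1 := by
  unfold ind; split_ifs <;> norm_num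

lemma ind_true {p : Prop} (h : p) : ind p = 1 := by unfold ind; rw [if_pos h]

lemma ind_false {p : Prop} (h : ¬ p) : ind p = 0 := by unfold ind; rw [if_neg h]

lemma ind_mono {p q : Prop} (h : p → q) : ind p ≤ ind q := by
  by_cases hp : p
  · rw [ind_true hp, ind_true (h hp)]
  · rw [ind_false hp]; exact ind_nonneg q

/-- The number of assignments with a property. -/
noncomputable def cnt {A : Type} [Fintype A] (p : A → Prop) : ℝ := ∑ a, ind (p a)

section Cnt
variable {A : Type} [Fintype A]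

lemma cnt_nonneg (p : A → Prop) : 0 ≤ cnt p :=
  Finset.sum_nonneg fun _ _ => ind_nonneg _

lemma cnt_mono {p q : A → Prop} (h : ∀ a, p a → q a) : cnt p ≤ cnt q :=
  Finset.sum_le_sum fun a _ => ind_mono (h a)

lemma cnt_or (p q : A → Prop) : cnt (fun a => p a ∨ q a) ≤ cnt p + cnt q := by
  unfold cnt
  rw [← Finset.sum_add_distrib]
  refine Finset.sum_le_sum fun a _ => ?_
  have h1 := ind_nonneg (p a)
  have h2 := ind_nonneg (q a)
  by_cases hp : p a
  · rw [ind_true (Or.inl hp : p a ∨ q a), ind_true hp]; linarith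
  · by_cases hq : q a
    · rw [ind_true (Or.inr hq : p a ∨ q a), ind_true hq]; linarith
    · rw [ind_false (by tauto : ¬ (p a ∨ q a))]; linarith

lemma cnt_exists {ι : Type} (l : Finset ι) (p : ι → A → Prop) :
    cnt (fun a => ∃ i ∈ l, p i a) ≤ ∑ i ∈ l, cnt (p i) := by
  unfold cnt
  rw [Finset.sum_comm]
  refine Finset.sum_le_sum fun a _ => ?_
  by_cases h : ∃ i ∈ l, p i a
  · rw [ind_true h]
    obtain ⟨i, hi, hp⟩ := h
    refine le_trans (le_of_eq (ind_true hp).symm)
      (Finset.single_le_sum (f := fun i => ind (p i a)) (fun i _ => ind_nonneg _) hi)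
  · rw [ind_false h]
    exact Finset.sum_nonneg fun i _ => ind_nonneg _

lemma cnt_exists_of_lt {p q : A → Prop} (h : cnt q < cnt p) : ∃ a, p a ∧ ¬ q a := by
  by_contra hcon
  push Not at hcon
  exact absurd (cnt_mono hcon) (not_le.2 h)

lemma cnt_le_card (p : A → Prop) : cnt p ≤ Fintype.card A := by
  unfold cnt
  calc _ ≤ ∑ _a : A, (1 : ℝ) := Finset.sum_le_sum fun a _ => ind_le_one _
    _ = _ := by simp

end Cnt

lemma nch_eq {α : Type} (s : Fin m → Fin r → Fin m)
    (f : ((Fin m × (Fin r → Fin N)) → Bool) → α) (X : (Fin m × (Fin r → Fin N)) → Bool) :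
    nch s f X = cnt (fun a => f X ≠ f (pl s a X)) := by
  classical
  unfold nch cnt pl ind
  refine Finset.sum_congr rfl fun a _ => ?_
  congr 1

lemma nch_comp {α β : Type} (s : Fin m → Fin r → Fin m)
    (f : ((Fin m × (Fin r → Fin N)) → Bool) → α) (φ : α → β)
    (X : (Fin m × (Fin r → Fin N)) → Bool) : nch s (fun X => φ (f X)) X ≤ nch s f X := by
  rw [nch_eq, nch_eq]
  apply cnt_mono
  intro a h h'
  exact h (by rw [h'])

/-- The double planting argument: one of the two sides of a disjoint pair is rarely reached. -/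
lemma double {Y Γ : Type} (s : Fin m → Fin r → Fin m) (A B : Set Y) (hAB : Disjoint A B)
    (pa pb : Γ → Y → Bool) (hA : ∀ u, u ∈ A ↔ ∃ γ, pa γ u = true)
    (hB : ∀ u, u ∈ B ↔ ∃ γ, pb γ u = true)
    (y : ((Fin m × (Fin r → Fin N)) → Bool) → Y) (X : (Fin m × (Fin r → Fin N)) → Bool)
    (τ : ℝ) (hτ : 0 ≤ τ)
    (hbad : cnt (fun a : Fin m → Fin N => ∃ γ, τ < nch s (fun X => pa γ (y X)) (pl s a X) ∨
      τ < nch s (fun X => pb γ (y X)) (pl s a X)) ≤ τ) :
    cnt (fun a : Fin m → Fin N => y (pl s a X) ∈ A) * cnt (fun a : Fin m → Fin N =>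
      y (pl s a X) ∈ B) ≤ 4 * τ * (N : ℝ) ^ m := by
  obtain ⟨NN, hNN⟩ : ∃ NN : ℝ, NN = (N : ℝ) ^ m := ⟨_, rfl⟩
  have hcard : ((Fintype.card (Fin m → Fin N) : ℕ) : ℝ) = NN := by
    rw [hNN, Fintype.card_fun, Fintype.card_fin, Fintype.card_fin]; push_cast; rfl
  have hNN0 : 0 ≤ NN := by rw [hNN]; positivity
  -- one side
  have side : ∀ (A : Set Y) (pa : Γ → Y → Bool), (∀ u, u ∈ A ↔ ∃ γ, pa γ u = true) →
      cnt (fun a : Fin m → Fin N => ∃ γ, τ < nch s (fun X => pa γ (y X)) (pl s a X)) ≤ τ →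
      (∑ a : Fin m → Fin N, ∑ b : Fin m → Fin N,
        ind (y (pl s a X) ∈ A ∧ y (pl s b (pl s a X)) ∉ A)) ≤ 2 * τ * NN := by
    intro A pa hA hbad
    have h1 : ∀ a : Fin m → Fin N, (∑ b : Fin m → Fin N,
        ind (y (pl s a X) ∈ A ∧ y (pl s b (pl s a X)) ∉ A)) ≤
        τ + NN * ind (∃ γ, τ < nch s (fun X => pa γ (y X)) (pl s a X)) := by
      intro a
      by_cases hg : ∃ γ, τ < nch s (fun X => pa γ (y X)) (pl s a X)
      · rw [ind_true hg, mul_one]
        have h2 := cnt_le_card (fun b : Fin m → Fin N =>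
          y (pl s a X) ∈ A ∧ y (pl s b (pl s a X)) ∉ A)
        rw [hcard] at h2
        unfold cnt at h2
        linarith
      · rw [ind_false hg, mul_zero, add_zero]
        push Not at hg
        by_cases ha : y (pl s a X) ∈ A
        · obtain ⟨γ, hγ⟩ := (hA _).1 ha
          refine le_trans ?_ (hg γ)
          rw [nch_eq]
          refine cnt_mono (p := fun b : Fin m → Fin N =>
            y (pl s a X) ∈ A ∧ y (pl s b (pl s a X)) ∉ A) ?_
          rintro b ⟨_, hb⟩ h'
          exact hb ((hA _).2 ⟨γ, by rw [← h', hγ]⟩)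
        · refine le_trans (le_of_eq ?_) hτ
          refine Finset.sum_eq_zero fun b _ => ind_false (fun h => ha h.1)
    calc _ ≤ ∑ a : Fin m → Fin N, (τ + NN *
          ind (∃ γ, τ < nch s (fun X => pa γ (y X)) (pl s a X))) :=
          Finset.sum_le_sum fun a _ => h1 a
      _ = NN * τ + NN * cnt (fun a : Fin m → Fin N =>
          ∃ γ, τ < nch s (fun X => pa γ (y X)) (pl s a X)) := by
          rw [Finset.sum_add_distrib, ← Finset.mul_sum]
          rw [Finset.sum_const, Finset.card_univ, nsmul_eq_mul, hcard]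
          rfl
      _ ≤ NN * τ + NN * τ := by
          have := mul_le_mul_of_nonneg_left hbad hNN0
          linarith
      _ = _ := by ring
  have hsA := side A pa hA (le_trans (cnt_mono fun a ⟨γ, h⟩ => ⟨γ, Or.inl h⟩) hbad)
  have hsB := side B pb hB (le_trans (cnt_mono fun a ⟨γ, h⟩ => ⟨γ, Or.inr h⟩) hbad)
  have hmul : cnt (fun a : Fin m → Fin N => y (pl s a X) ∈ A) * cnt (fun a : Fin m → Fin N =>
      y (pl s a X) ∈ B) = ∑ a : Fin m → Fin N, ∑ b : Fin m → Fin N,
        ind (y (pl s a X) ∈ A) * ind (y (pl s b X) ∈ B) := by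
    unfold cnt
    rw [Finset.sum_mul_sum]
  rw [hmul]
  have hpt : ∀ a b : Fin m → Fin N,
      ind (y (pl s a X) ∈ A) * ind (y (pl s b X) ∈ B) ≤
      ind (y (pl s a X) ∈ A ∧ y (pl s b (pl s a X)) ∉ A) +
      ind (y (pl s b X) ∈ B ∧ y (pl s a (pl s b X)) ∉ B) := by
    intro a b
    have h0 := ind_nonneg (y (pl s a X) ∈ A ∧ y (pl s b (pl s a X)) ∉ A)
    have h0' := ind_nonneg (y (pl s b X) ∈ B ∧ y (pl s a (pl s b X)) ∉ B)
    by_cases h1 : y (pl s a X) ∈ A
    · by_cases h2 : y (pl s b X) ∈ B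
      · rw [ind_true h1, ind_true h2, mul_one]
        by_cases h3 : y (pl s b (pl s a X)) ∉ A
        · have := ind_true (⟨h1, h3⟩ : y (pl s a X) ∈ A ∧ y (pl s b (pl s a X)) ∉ A)
          linarith
        · have h4 : y (pl s a (pl s b X)) ∉ B := by
            rw [pl_comm]
            intro h5
            push Not at h3
            exact Set.disjoint_left.1 hAB h3 h5
          have := ind_true (⟨h2, h4⟩ : y (pl s b X) ∈ B ∧ y (pl s a (pl s b X)) ∉ B)
          linarith
      · rw [ind_false h2, mul_zero]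
        linarith
    · rw [ind_false h1, zero_mul]
      linarith
  calc _ ≤ ∑ a : Fin m → Fin N, ∑ b : Fin m → Fin N,
      (ind (y (pl s a X) ∈ A ∧ y (pl s b (pl s a X)) ∉ A) +
      ind (y (pl s b X) ∈ B ∧ y (pl s a (pl s b X)) ∉ B)) :=
        Finset.sum_le_sum fun a _ => Finset.sum_le_sum fun b _ => hpt a b
    _ ≤ 2 * τ * NN + 2 * τ * NN := by
        simp only [Finset.sum_add_distrib]
        have h5 : (∑ a : Fin m → Fin N, ∑ b : Fin m → Fin N,
          ind (y (pl s b X) ∈ B ∧ y (pl s a (pl s b X)) ∉ B)) ≤ 2 * τ * NN := by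
          rw [Finset.sum_comm]
          exact hsB
        linarith
    _ = _ := by rw [← hNN]; ring

end Core

end Pool.Agent.W980.Esy
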