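import Mathlib
import Pool.Agent.W980.Esy.Core

/-!
The existence of good instances.
-/

set_option autoImplicit false

namespace Pool.Agent.W980.Esy

open Finset H568R2 H592R3 Pool.Agent.W964.Pram

section Density

variable {I : Type} [Fintype I] [DecidableEq I]

/-- Setting one variable. -/
lemma Ex_update_le {p : ℝ} (hp0 : 0 < p) (hp1 : p ≤ 1) (i : I) (F : (I → Bool) → ℝ)
    (hF : ∀ X, 0 ≤ F X) :
    Ex (vp p) (fun X => F (Function.update X i true)) ≤ (1 / p) * Ex (vp p) F := by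
  classical
  obtain ⟨e, he⟩ : ∃ e : (I → Bool) ≃ Bool × ({j // j ≠ i} → Bool), e = Equiv.funSplitAt i Bool :=
    ⟨_, rfl⟩
  have hprod : ∀ X : I → Bool, ∏ j, vp p (X j) =
      vp p (e X).1 * ∏ j : {j // j ≠ i}, vp p ((e X).2 j) := by
    intro X
    rw [Fintype.prod_eq_mul_prod_subtype_ne (fun j => vp p (X j)) i, he]
    rfl
  have hsplit : ∀ G : (I → Bool) → ℝ, Ex (vp p) G =
      ∑ Y : {j // j ≠ i} → Bool, (∏ j, vp p (Y j)) *
        (p * G (e.symm (true, Y)) + (1 - p) * G (e.symm (false, Y))) := by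
    intro G
    unfold Ex
    rw [← Equiv.sum_comp e.symm, Fintype.sum_prod_type, Fintype.sum_bool,
      ← Finset.sum_add_distrib]
    refine Finset.sum_congr rfl fun Y _ => ?_
    rw [hprod, hprod, Equiv.apply_symm_apply, Equiv.apply_symm_apply]
    unfold vp
    ring
  have hupd : ∀ (b : Bool) (Y : {j // j ≠ i} → Bool),
      Function.update (e.symm (b, Y)) i true = e.symm (true, Y) := by
    intro b Y
    apply e.injective
    rw [Equiv.apply_symm_apply]
    have h1 : ∀ X : I → Bool, e X = (X i, fun j => X j.1) := by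
      intro X; rw [he]; rfl
    have h2 := e.apply_symm_apply (b, Y)
    rw [h1] at h2 ⊢
    refine Prod.ext ?_ ?_
    · exact Function.update_self _ _ _
    · funext j
      have h3 := congrFun (congrArg Prod.snd h2) j
      dsimp only at h3 ⊢
      rw [Function.update_of_ne j.2]
      exact h3
  rw [hsplit, hsplit F, Finset.mul_sum]
  refine Finset.sum_le_sum fun Y _ => ?_
  rw [hupd, hupd]
  have h1 : 0 ≤ ∏ j : {j // j ≠ i}, vp p (Y j) :=
    Finset.prod_nonneg fun j _ => vp_nonneg hp0.le hp1 _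
  have h2 : p * F (e.symm (true, Y)) + (1 - p) * F (e.symm (true, Y)) ≤
      1 / p * (p * F (e.symm (true, Y)) + (1 - p) * F (e.symm (false, Y))) := by
    have h3 := hF (e.symm (false, Y))
    have h4 : 1 / p * (p * F (e.symm (true, Y)) + (1 - p) * F (e.symm (false, Y))) =
        F (e.symm (true, Y)) + (1 / p) * ((1 - p) * F (e.symm (false, Y))) := by
      field_simp
    rw [h4]
    have h5 : 0 ≤ (1 / p) * ((1 - p) * F (e.symm (false, Y))) := by
      have : 0 ≤ 1 - p := by linarith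
      positivity
    linarith
  calc _ ≤ (∏ j : {j // j ≠ i}, vp p (Y j)) *
        (1 / p * (p * F (e.symm (true, Y)) + (1 - p) * F (e.symm (false, Y)))) :=
        mul_le_mul_of_nonneg_left h2 h1
    _ = _ := by ring

/-- Planting. -/
lemma Ex_plant_le {K : Type} [DecidableEq K] {p : ℝ} (hp0 : 0 < p) (hp1 : p ≤ 1) (v : K → I)
    (h : Finset K) : ∀ (F : (I → Bool) → ℝ), (∀ X, 0 ≤ F X) →
    Ex (vp p) (fun X => F (plant v h X)) ≤ (1 / p) ^ h.card * Ex (vp p) F := by
  induction h using Finset.induction_on with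
  | empty =>
    intro F _
    rw [Finset.card_empty, pow_zero, one_mul]
    apply le_of_eq
    congr 1
  | insert j h hj ih =>
    intro F hF
    have e1 : (fun X => F (plant v (insert j h) X)) = fun X => (fun Z => F (Function.update Z (v j) true))
        (plant v h X) := by
      funext X
      dsimp only
      congr 1
      funext i
      rw [Bool.eq_iff_iff, plant_true]
      by_cases hi : i = v j
      · subst hi
        rw [Function.update_self]
        simp
      · rw [Function.update_of_ne hi, plant_true]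
        constructor
        · rintro (⟨l, hl, hli⟩ | h')
          · rcases Finset.mem_insert.1 hl with h'' | h''
            · subst h''; exact absurd hli.symm hi
            · exact Or.inl ⟨l, h'', hli⟩
          · exact Or.inr h'
        · rintro (⟨l, hl, hli⟩ | h')
          · exact Or.inl ⟨l, Finset.mem_insert_of_mem hl, hli⟩
          · exact Or.inr h'
    rw [e1, Finset.card_insert_of_notMem hj, pow_succ]
    refine (ih (fun Z => F (Function.update Z (v j) true)) (fun X => hF _)).trans ?_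
    rw [mul_assoc]
    exact mul_le_mul_of_nonneg_left (Ex_update_le hp0 hp1 (v j) F hF) (by positivity)

lemma Ex_exists_lt {p : ℝ} (hp0 : 0 ≤ p) (hp1 : p ≤ 1) (F : (I → Bool) → ℝ)
    (h : Ex (vp p) F < 1) : ∃ X, F X < 1 := by
  by_contra hcon
  push Not at hcon
  have h1 := Ex_mono (w := vp p) (vp_nonneg hp0 hp1) (F := fun _ => (1 : ℝ)) (G := F) hcon
  rw [Ex_const (vp_sum p)] at h1
  linarith

/-- Markov's inequality and the union bound. -/
lemma Ex_markov {ι : Type} [Fintype ι] {p : ℝ} (hp0 : 0 ≤ p) (hp1 : p ≤ 1)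
    (g : ι → (I → Bool) → ℝ) (hg : ∀ i X, 0 ≤ g i X) (R τ : ℝ) (hτ : 0 < τ) (κ : ℕ)
    (h : ∀ i, Ex (vp p) (fun X => g i X ^ κ) ≤ R ^ κ) :
    Ex (vp p) (fun X => ind (∃ i, τ < g i X)) ≤ Fintype.card ι * (R / τ) ^ κ := by
  have hpt : ∀ X, ind (∃ i, τ < g i X) ≤ ∑ i, (1 / τ) ^ κ * g i X ^ κ := by
    intro X
    by_cases hX : ∃ i, τ < g i X
    · rw [ind_true hX]
      obtain ⟨i, hi⟩ := hX
      refine le_trans ?_ (Finset.single_le_sum (f := fun i => (1 / τ) ^ κ * g i X ^ κ)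
        (fun i _ => mul_nonneg (by positivity) (pow_nonneg (hg i X) κ)) (Finset.mem_univ i))
      beta_reduce
      rw [← mul_pow]
      apply one_le_pow₀
      rw [one_div_mul_eq_div, le_div_iff₀ hτ]
      linarith
    · rw [ind_false hX]
      exact Finset.sum_nonneg fun i _ => mul_nonneg (by positivity) (pow_nonneg (hg i X) κ)
  refine (Ex_mono (vp_nonneg hp0 hp1) hpt).trans ?_
  rw [Ex_sum]
  have h2 : ∀ i ∈ (univ : Finset ι), Ex (vp p) (fun X => (1 / τ) ^ κ * g i X ^ κ) ≤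
      (R / τ) ^ κ := by
    intro i _
    rw [Ex_smul]
    calc (1 / τ) ^ κ * Ex (vp p) (fun X => g i X ^ κ) ≤ (1 / τ) ^ κ * R ^ κ :=
          mul_le_mul_of_nonneg_left (h i) (by positivity)
      _ = _ := by rw [← mul_pow]; congr 1; ring
  refine (Finset.sum_le_card_nsmul _ _ _ h2).trans (le_of_eq ?_)
  rw [Finset.card_univ, nsmul_eq_mul]

end Density

variable {m r N : ℕ}

theorem exists_good {ι0 ι1 : Type} [Fintype ι0] [Fintype ι1] (hN : 1 ≤ N)
    (s : Fin m → Fin r → Fin m) {p : ℝ} (hp0 : 0 < p) (hp1 : p ≤ 1)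
    (g0 : ι0 → ((Fin m × (Fin r → Fin N)) → Bool) → ℝ)
    (g1 : ι1 → ((Fin m × (Fin r → Fin N)) → Bool) → ℝ)
    (hg0 : ∀ i X, 0 ≤ g0 i X) (hg1 : ∀ i X, 0 ≤ g1 i X) (R τ : ℝ) (hτ : 0 < τ) (κ : ℕ)
    (h0 : ∀ i, Ex (vp p) (fun X => g0 i X ^ κ) ≤ R ^ κ)
    (h1 : ∀ i, Ex (vp p) (fun X => g1 i X ^ κ) ≤ R ^ κ)
    (P0 : (Fin m → Fin N) → ((Fin m × (Fin r → Fin N)) → Bool) → Prop)
    (hP : ∀ a, Ex (vp p) (fun X => ind (¬ P0 a X)) ≤ 1 / 2)
    (hsmall : ((Fintype.card ι0 : ℝ) + Fintype.card ι1) * (R / τ) ^ κ +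
      (1 / τ) * ((N : ℝ) ^ m * ((1 / p) ^ m * (Fintype.card ι1 * (R / τ) ^ κ))) < 1 / 3) :
    ∃ X, (∀ i, g0 i X ≤ τ) ∧ (∀ i, g1 i X ≤ τ) ∧
      cnt (fun a : Fin m → Fin N => ∃ i, τ < g1 i (pl s a X)) ≤ τ ∧
      (N : ℝ) ^ m / 4 ≤ cnt (fun a => P0 a X) := by
  obtain ⟨NN, hNN⟩ : ∃ NN : ℝ, NN = (N : ℝ) ^ m := ⟨_, rfl⟩
  have hNR : (0 : ℝ) < N := by exact_mod_cast hN
  have hNN0 : 0 < NN := by rw [hNN]; positivity
  have hcard : ((Fintype.card (Fin m → Fin N) : ℕ) : ℝ) = NN := by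
    rw [hNN, Fintype.card_fun, Fintype.card_fin, Fintype.card_fin]; push_cast; rfl
  rw [← hNN] at hsmall ⊢
  obtain ⟨F, hF⟩ : ∃ F : ((Fin m × (Fin r → Fin N)) → Bool) → ℝ, F = fun X =>
      (ind (∃ i, τ < g0 i X) + ind (∃ i, τ < g1 i X)) +
      ((1 / τ) * (∑ a : Fin m → Fin N, ind (∃ i, τ < g1 i (pl s a X))) +
      (4 / (3 * NN)) * (∑ a : Fin m → Fin N, ind (¬ P0 a X))) := ⟨_, rfl⟩
  have hEF : Ex (vp p) F < 1 := by
    rw [hF, Ex_add, Ex_add, Ex_add, Ex_smul, Ex_smul, Ex_sum, Ex_sum]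
    have a0 := Ex_markov hp0.le hp1 g0 hg0 R τ hτ κ h0
    have a1 := Ex_markov hp0.le hp1 g1 hg1 R τ hτ κ h1
    have a2 : ∀ a ∈ (univ : Finset (Fin m → Fin N)),
        Ex (vp p) (fun X => ind (∃ i, τ < g1 i (pl s a X))) ≤
        (1 / p) ^ m * (Fintype.card ι1 * (R / τ) ^ κ) := by
      intro a _
      have h2 := Ex_plant_le hp0 hp1 (vr s a) univ (fun X => ind (∃ i, τ < g1 i X))
        (fun X => ind_nonneg _)
      rw [Finset.card_univ, Fintype.card_fin] at h2
      exact h2.trans (mul_le_mul_of_nonneg_left a1 (by positivity))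
    have a3 := Finset.sum_le_card_nsmul _ _ _ a2
    rw [Finset.card_univ, nsmul_eq_mul, hcard] at a3
    have a4 := Finset.sum_le_card_nsmul (univ : Finset (Fin m → Fin N)) _ _ (fun a _ => hP a)
    rw [Finset.card_univ, nsmul_eq_mul, hcard] at a4
    have a5 := mul_le_mul_of_nonneg_left a3 (by positivity : 0 ≤ 1 / τ)
    have a6 := mul_le_mul_of_nonneg_left a4 (by positivity : 0 ≤ 4 / (3 * NN))
    have a7 : 4 / (3 * NN) * (NN * (1 / 2)) = 2 / 3 := by field_simp; norm_num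
    rw [a7] at a6
    have a8 : ((Fintype.card ι0 : ℝ) + Fintype.card ι1) * (R / τ) ^ κ =
      Fintype.card ι0 * (R / τ) ^ κ + Fintype.card ι1 * (R / τ) ^ κ := by ring
    linarith
  obtain ⟨X, hX⟩ := Ex_exists_lt hp0.le hp1 F hEF
  rw [hF] at hX
  dsimp only at hX
  have b1 := ind_nonneg (∃ i, τ < g0 i X)
  have b2 := ind_nonneg (∃ i, τ < g1 i X)
  have b3 : 0 ≤ (1 / τ) * (∑ a : Fin m → Fin N, ind (∃ i, τ < g1 i (pl s a X))) :=
    mul_nonneg (by positivity) (Finset.sum_nonneg fun a _ => ind_nonneg _)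
  have b4 : 0 ≤ (4 / (3 * NN)) * (∑ a : Fin m → Fin N, ind (¬ P0 a X)) :=
    mul_nonneg (by positivity) (Finset.sum_nonneg fun a _ => ind_nonneg _)
  refine ⟨X, ?_, ?_, ?_, ?_⟩
  · by_contra hcon
    push Not at hcon
    have := ind_true hcon
    linarith
  · by_contra hcon
    push Not at hcon
    have := ind_true hcon
    linarith
  · have h2 : (1 / τ) * (∑ a : Fin m → Fin N, ind (∃ i, τ < g1 i (pl s a X))) < 1 := by linarith
    rw [one_div_mul_eq_div, div_lt_one hτ] at h2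
    exact h2.le
  · have h2 : (4 / (3 * NN)) * (∑ a : Fin m → Fin N, ind (¬ P0 a X)) < 1 := by linarith
    have h3 : (∑ a : Fin m → Fin N, ind (¬ P0 a X)) + cnt (fun a => P0 a X) = NN := by
      unfold cnt
      rw [← Finset.sum_add_distrib, ← hcard]
      have : ∀ a : Fin m → Fin N, ind (¬ P0 a X) + ind (P0 a X) = 1 := by
        intro a
        by_cases h : P0 a X
        · rw [ind_true h, ind_false (not_not.2 h)]; norm_num
        · rw [ind_false h, ind_true h]; norm_num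
      simp only [this]
      simp
    have h4 : (∑ a : Fin m → Fin N, ind (¬ P0 a X)) < 3 * NN / 4 := by
      have h5 : (4 / (3 * NN)) * (∑ a : Fin m → Fin N, ind (¬ P0 a X)) =
        (∑ a : Fin m → Fin N, ind (¬ P0 a X)) / (3 * NN / 4) := by field_simp
      rw [h5, div_lt_one (by positivity)] at h2
      exact h2
    linarith

end Pool.Agent.W980.Esy
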