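import Mathlib
import Pool.Agent.W964.Wd.Machine

/-!
Constructions with parallel machines: stopping, two machines side by side, and one machine whose
processors prepare the input words of a second machine.
-/

set_option autoImplicit false

namespace Pool.Agent.W980.Esy

open Pool.Agent.W964.Wd

variable {W J : Type} {P : ℕ}

/-! ### Stopping -/

/-- The machine that makes `T` steps of `M` and then does nothing. -/
@[reducible] def stop (M : Machine W J P) (T : ℕ) : Machine W J P where
  Q := M.Q × ℕ
  A := M.A
  V := M.V
  word := M.word
  blank := M.blank
  start p := (M.start p, 0)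
  query q := if q.2 < T then M.query q.1 else []
  test q := M.test q.1
  next q o := if q.2 < T then (M.next q.1 o, q.2 + 1) else q
  write q := if q.2 = 0 then none else M.write q.1
  out := M.out
  accept := M.accept

lemma stop_find (M : Machine W J P) (T : ℕ) (q : M.Q) {t : ℕ} (ht : t < T)
    (mem : J ⊕ M.A → M.V) : (stop M T).find (q, t) mem = M.find q mem := by
  unfold Machine.find
  simp only [if_pos ht]

lemma stop_wr (M : Machine W J P) (T : ℕ) (q : M.Q) {t : ℕ} (ht : t ≠ 0) (c : J ⊕ M.A) :
    (stop M T).wr c (q, t) = M.wr c q := by
  unfold Machine.wr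
  simp only [if_neg ht]

lemma stop_wr_zero (M : Machine W J P) (T : ℕ) (q : M.Q) (c : J ⊕ M.A) :
    (stop M T).wr c (q, 0) = none := by
  unfold Machine.wr
  simp

lemma stop_run (M : Machine W J P) (T : ℕ) (x : J → W) (t : ℕ) (ht : t ≤ T) :
    (stop M T).run x t = (fun p => ((M.run x t).1 p, t), (M.run x t).2) := by
  induction t with
  | zero => rfl
  | succ t ih =>
    have ih' := ih (by omega)
    have hst : (fun p => (stop M T).next (((stop M T).run x t).1 p)
        ((stop M T).find (((stop M T).run x t).1 p) ((stop M T).run x t).2)) =
        fun p => ((M.run x (t + 1)).1 p, t + 1) := by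
      funext p
      rw [ih']
      dsimp only
      rw [stop_find M T _ (by omega : t < T)]
      show (if t < T then _ else _) = _
      rw [if_pos (by omega)]
      rfl
    have h1 : ((stop M T).run x (t + 1)).1 = fun p => ((M.run x (t + 1)).1 p, t + 1) := hst
    refine Prod.ext h1 ?_
    have h2 : ((stop M T).run x (t + 1)).2 = fun c => ((List.finRange P).findSome? (fun p =>
        (stop M T).wr c (((stop M T).run x (t + 1)).1 p))).getD (((stop M T).run x t).2 c) := rfl
    rw [h2, h1, ih']
    funext c
    dsimp only
    simp only [stop_wr M T _ (Nat.succ_ne_zero t)]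
    rfl

lemma stop_run_ge (M : Machine W J P) (T : ℕ) (x : J → W) (s : ℕ) :
    (stop M T).run x (T + s) = (fun p => ((M.run x T).1 p, T), (M.run x T).2) := by
  induction s with
  | zero => exact stop_run M T x T le_rfl
  | succ s ih =>
    have h1 : ((stop M T).run x (T + (s + 1))).1 = fun p => ((M.run x T).1 p, T) := by
      show (fun p => (stop M T).next (((stop M T).run x (T + s)).1 p)
        ((stop M T).find (((stop M T).run x (T + s)).1 p) ((stop M T).run x (T + s)).2)) = _
      funext p
      rw [ih]
      dsimp only
      rw [if_neg (lt_irrefl T)]
    refine Prod.ext h1 ?_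
    have h2 : ((stop M T).run x (T + (s + 1))).2 = fun c => ((List.finRange P).findSome? (fun p =>
        (stop M T).wr c (((stop M T).run x (T + (s + 1))).1 p))).getD
          (((stop M T).run x (T + s)).2 c) := rfl
    rw [h2, h1, ih]
    funext c
    dsimp only
    cases T with
    | zero =>
      simp only [stop_wr_zero]
      rw [show (List.finRange P).findSome? (fun _ => (none : Option M.V)) = none by
        rw [List.findSome?_eq_none_iff]; intro a _; rfl]
      rfl
    | succ T =>
      simp only [stop_wr M _ _ (Nat.succ_ne_zero T)]
      show _ = ((List.finRange P).findSome? (fun p => M.wr c ((M.run x (T + 1)).1 p))).getD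
        ((M.run x T).2 c)
      rw [show (M.run x (T + 1)).2 c = ((List.finRange P).findSome? (fun p =>
        M.wr c ((M.run x (T + 1)).1 p))).getD ((M.run x T).2 c) from rfl]
      cases (List.finRange P).findSome? (fun p => M.wr c ((M.run x (T + 1)).1 p)) <;> rfl

lemma stop_result (M : Machine W J P) (T : ℕ) (x : J → W) (s : ℕ) :
    (stop M T).result (T + s) x = M.result T x := by
  unfold Machine.result
  rw [stop_run_ge]

lemma stop_lists {M : Machine W J P} {T k : ℕ} (h : M.Lists k) : (stop M T).Lists k := by
  intro q
  show (if q.2 < T then M.query q.1 else []).length ≤ k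
  split_ifs
  · exact h q.1
  · simp

/-! ### Lists of processors -/

lemma findSome_add {α : Type} {P' : ℕ} (f : Fin (P + P') → Option α) :
    (List.finRange (P + P')).findSome? f =
      ((List.finRange P).findSome? (fun p => f (Fin.castAdd P' p))).or
        ((List.finRange P').findSome? (fun p => f (Fin.natAdd P p))) := by
  have h1 : List.finRange (P + P') = (List.finRange P).map (Fin.castAdd P') ++
      (List.finRange P').map (Fin.natAdd P) := by
    rw [← List.ofFn_id, List.ofFn_add, ← List.ofFn_id, ← List.ofFn_id, List.map_ofFn,
      List.map_ofFn]
    rfl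
  rw [h1, List.findSome?_append, List.findSome?_map, List.findSome?_map]
  rfl

lemma findSome_map {α β γ : Type} (l : List α) (f : α → Option β) (g : β → γ) :
    l.findSome? (fun a => (f a).map g) = (l.findSome? f).map g := by
  induction l with
  | nil => rfl
  | cons a l ih =>
    rw [List.findSome?_cons, List.findSome?_cons]
    cases f a with
    | none => exact ih
    | some b => rfl

lemma findSome_none {α β : Type} (l : List α) (f : α → Option β) (h : ∀ a, f a = none) :
    l.findSome? f = none := by
  rw [List.findSome?_eq_none_iff]
  exact fun a _ => h a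

end Pool.Agent.W980.Esy
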