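import Mathlib
import Pool.Agent.W980.Esy.Seq

/-!
One machine prepares the input words of a second machine.
-/

set_option autoImplicit false

namespace Pool.Agent.W980.Esy

open Pool.Agent.W964.Wd

variable {W W' J : Type} {P P' : ℕ}

/-- The content of a cell of the first machine. -/
def backM (M : Machine W J P) (V : Machine W' (Fin P) P') :
    (J ⊕ (M.A ⊕ (Fin P ⊕ V.A))) × (M.V × V.V) → Option ((J ⊕ M.A) × M.V)
  | (Sum.inl j, v) => some (Sum.inl j, v.1)
  | (Sum.inr (Sum.inl a), v) => some (Sum.inr a, v.1)
  | (Sum.inr (Sum.inr _), _) => none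

/-- The content of a cell of the second machine. -/
def backV (M : Machine W J P) (V : Machine W' (Fin P) P') :
    (J ⊕ (M.A ⊕ (Fin P ⊕ V.A))) × (M.V × V.V) → Option ((Fin P ⊕ V.A) × V.V)
  | (Sum.inl _, _) => none
  | (Sum.inr (Sum.inl _), _) => none
  | (Sum.inr (Sum.inr c), v) => some (c, v.2)

/-- The cells of the first machine. -/
@[reducible] def embM (M : Machine W J P) (V : Machine W' (Fin P) P') :
    J ⊕ M.A → J ⊕ (M.A ⊕ (Fin P ⊕ V.A)) := Sum.map id Sum.inl

/-- The cells of the second machine. -/
@[reducible] def embV (M : Machine W J P) (V : Machine W' (Fin P) P') :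
    Fin P ⊕ V.A → J ⊕ (M.A ⊕ (Fin P ⊕ V.A)) := fun c => Sum.inr (Sum.inr c)

/-- The machine that makes `T` steps of `M` and then lets `V` work on the words
`ask p q`, where `q` is the state of the processor `p` after `T` steps. -/
@[reducible] def seqM (M : Machine W J P) (ask : Fin P → M.Q → W') (V : Machine W' (Fin P) P')
    (T : ℕ) : Machine W J (P + P') where
  Q := (M.Q × ℕ × Fin P) ⊕ (V.Q × ℕ)
  A := M.A ⊕ (Fin P ⊕ V.A)
  V := M.V × V.V
  word w := (M.word w, V.blank)
  blank := (M.blank, V.blank)
  start := Fin.addCases (fun p => Sum.inl (M.start p, 0, p)) (fun p => Sum.inr (V.start p, 0))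
  query
    | Sum.inl q => if q.2.1 < T then (M.query q.1).map (embM M V) else []
    | Sum.inr q => if q.2 < T then [] else (V.query q.1).map (embV M V)
  test
    | Sum.inl q => fun v => M.test q.1 v.1
    | Sum.inr q => fun v => V.test q.1 v.2
  next
    | Sum.inl q => fun o => if q.2.1 < T then Sum.inl (M.next q.1 (o.bind (backM M V)), q.2.1 + 1, q.2.2)
        else Sum.inl (q.1, q.2.1 + 1, q.2.2)
    | Sum.inr q => fun o => if q.2 < T then Sum.inr (q.1, q.2 + 1)
        else Sum.inr (V.next q.1 (o.bind (backV M V)), q.2 + 1)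
  write
    | Sum.inl q => if q.2.1 < T then (M.write q.1).map (fun w => (embM M V w.1, (w.2, V.blank)))
        else if q.2.1 = T then
          some (embV M V (Sum.inl q.2.2), (M.blank, V.word (ask q.2.2 q.1)))
        else none
    | Sum.inr q => if q.2 ≤ T then none
        else (V.write q.1).map (fun w => (embV M V w.1, (M.blank, w.2)))
  out := embV M V V.out
  accept v := V.accept v.2

section Lemmas

variable (M : Machine W J P) (ask : Fin P → M.Q → W') (V : Machine W' (Fin P) P') (T : ℕ)

lemma seq_find_M (q : M.Q) {t : ℕ} (p : Fin P) (ht : t < T)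
    (mem : J ⊕ (M.A ⊕ (Fin P ⊕ V.A)) → M.V × V.V) (memM : J ⊕ M.A → M.V)
    (hmem : ∀ c, (mem (embM M V c)).1 = memM c) :
    ((seqM M ask V T).find (Sum.inl (q, t, p)) mem).bind (backM M V) = M.find q memM := by
  unfold Machine.find
  simp only [if_pos ht]
  rw [List.findSome?_map]
  induction M.query q with
  | nil => rfl
  | cons c l ih =>
    rw [List.findSome?_cons, List.findSome?_cons]
    simp only [Function.comp]
    rw [hmem c]
    by_cases h : M.test q (memM c) = true
    · rw [if_pos h, if_pos h]
      simp only [Option.bind_some]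
      cases c with
      | inl j => simp only [embM, Sum.map_inl, id, backM]; rw [← hmem (Sum.inl j)]; rfl
      | inr a => simp only [embM, Sum.map_inr, backM]; rw [← hmem (Sum.inr a)]; rfl
    · rw [if_neg h, if_neg h]
      exact ih

lemma seq_find_V (q : V.Q) {t : ℕ} (ht : ¬ t < T)
    (mem : J ⊕ (M.A ⊕ (Fin P ⊕ V.A)) → M.V × V.V) (memV : Fin P ⊕ V.A → V.V)
    (hmem : ∀ c, (mem (embV M V c)).2 = memV c) :
    ((seqM M ask V T).find (Sum.inr (q, t)) mem).bind (backV M V) = V.find q memV := by
  unfold Machine.find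
  simp only [if_neg ht]
  rw [List.findSome?_map]
  induction V.query q with
  | nil => rfl
  | cons c l ih =>
    rw [List.findSome?_cons, List.findSome?_cons]
    simp only [Function.comp]
    rw [hmem c]
    by_cases h : V.test q (memV c) = true
    · rw [if_pos h, if_pos h]
      simp only [Option.bind_some, embV, backV]
      rw [← hmem c]
    · rw [if_neg h, if_neg h]
      exact ih

lemma embM_inj {c c' : J ⊕ M.A} (h : embM M V c = embM M V c') : c = c' := by
  cases c <;> cases c' <;> simp_all [embM]

lemma embM_ne_embV (c : J ⊕ M.A) (c' : Fin P ⊕ V.A) : embM M V c ≠ embV M V c' := by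
  cases c <;> simp [embM, embV]

lemma seq_wr_MM (q : M.Q) {t : ℕ} (p : Fin P) (ht : t < T) (c : J ⊕ M.A) :
    (seqM M ask V T).wr (embM M V c) (Sum.inl (q, t, p)) =
      (M.wr c q).map (fun v => (v, V.blank)) := by
  classical
  unfold Machine.wr
  simp only [if_pos ht]
  cases h : M.write q with
  | none => rfl
  | some w =>
    simp only [Option.map_some, Option.bind_some]
    by_cases hw : w.1 = c
    · rw [if_pos (by rw [hw]), if_pos hw]; rfl
    · rw [if_neg (fun h' => hw (embM_inj M V h')), if_neg hw]; rfl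

lemma seq_wr_MV (q : M.Q) {t : ℕ} (p : Fin P) (ht : t < T) (c : Fin P ⊕ V.A) :
    (seqM M ask V T).wr (embV M V c) (Sum.inl (q, t, p)) = none := by
  classical
  unfold Machine.wr
  simp only [if_pos ht]
  cases h : M.write q with
  | none => rfl
  | some w =>
    simp only [Option.map_some, Option.bind_some]
    rw [if_neg (embM_ne_embV M V w.1 c)]

lemma seq_wr_copy (q : M.Q) (p : Fin P) (c : Fin P ⊕ V.A) :
    (seqM M ask V T).wr (embV M V c) (Sum.inl (q, T, p)) =
      open Classical in if Sum.inl p = c then some (M.blank, V.word (ask p q)) else none := by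
  classical
  unfold Machine.wr
  simp only [lt_irrefl, if_false, if_true, Option.bind_some]
  by_cases h : (Sum.inl p : Fin P ⊕ V.A) = c
  · rw [if_pos (by rw [h]), if_pos h]
  · rw [if_neg, if_neg h]
    intro h'
    exact h (Sum.inr_injective (Sum.inr_injective h'))

lemma seq_wr_idle (q : M.Q) {t : ℕ} (p : Fin P) (ht : T < t)
    (c : J ⊕ (M.A ⊕ (Fin P ⊕ V.A))) :
    (seqM M ask V T).wr c (Sum.inl (q, t, p)) = none := by
  classical
  unfold Machine.wr
  simp only [if_neg (by omega : ¬ t < T), if_neg (by omega : ¬ t = T), Option.bind_none]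

lemma seq_wr_V0 (q : V.Q) {t : ℕ} (ht : t ≤ T)
    (c : J ⊕ (M.A ⊕ (Fin P ⊕ V.A))) :
    (seqM M ask V T).wr c (Sum.inr (q, t)) = none := by
  classical
  unfold Machine.wr
  simp only [if_pos ht, Option.bind_none]

lemma seq_wr_VV (q : V.Q) {t : ℕ} (ht : T < t) (c : Fin P ⊕ V.A) :
    (seqM M ask V T).wr (embV M V c) (Sum.inr (q, t)) =
      (V.wr c q).map (fun v => (M.blank, v)) := by
  classical
  unfold Machine.wr
  simp only [if_neg (by omega : ¬ t ≤ T)]
  cases h : V.write q with
  | none => rfl
  | some w =>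
    simp only [Option.map_some, Option.bind_some]
    by_cases hw : w.1 = c
    · rw [if_pos (by rw [hw]), if_pos hw]; rfl
    · rw [if_neg, if_neg hw]
      · rfl
      · intro h'
        exact hw (Sum.inr_injective (Sum.inr_injective h'))

variable (x : J → W)

/-- The input words of the second machine. -/
noncomputable def wordsOf : Fin P → W' := fun p => ask p ((M.run x T).1 p)

lemma run_succ_fst {P₀ : ℕ} {W₀ J₀ : Type} (M : Machine W₀ J₀ P₀) (x : J₀ → W₀) (t : ℕ)
    (p : Fin P₀) : (M.run x (t + 1)).1 p = M.next ((M.run x t).1 p)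
      (M.find ((M.run x t).1 p) (M.run x t).2) := rfl

lemma run_succ_snd {P₀ : ℕ} {W₀ J₀ : Type} (M : Machine W₀ J₀ P₀) (x : J₀ → W₀) (t : ℕ)
    (c : J₀ ⊕ M.A) : (M.run x (t + 1)).2 c = ((List.finRange P₀).findSome? (fun p =>
      M.wr c ((M.run x (t + 1)).1 p))).getD ((M.run x t).2 c) := rfl

/-- The first phase. -/
lemma seq_phase1 (t : ℕ) (ht : t < T) :
    (∀ p, ((seqM M ask V T).run x t).1 (Fin.castAdd P' p) = Sum.inl ((M.run x t).1 p, t, p)) ∧
    (∀ p, ((seqM M ask V T).run x t).1 (Fin.natAdd P p) = Sum.inr (V.start p, t)) ∧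
    (∀ c, ((seqM M ask V T).run x t).2 (embM M V c) = ((M.run x t).2 c, V.blank)) ∧
    (∀ c, ((seqM M ask V T).run x t).2 (embV M V c) = (M.blank, V.blank)) := by
  induction t with
  | zero =>
    refine ⟨fun p => ?_, fun p => ?_, fun c => ?_, fun c => ?_⟩
    · exact Fin.addCases_left (motive := fun _ => (M.Q × ℕ × Fin P) ⊕ (V.Q × ℕ))
        (left := fun p => Sum.inl (M.start p, 0, p)) (right := fun p => Sum.inr (V.start p, 0)) p
    · exact Fin.addCases_right (motive := fun _ => (M.Q × ℕ × Fin P) ⊕ (V.Q × ℕ))
        (left := fun p => Sum.inl (M.start p, 0, p)) (right := fun p => Sum.inr (V.start p, 0)) p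
    · cases c <;> rfl
    · rfl
  | succ t ih =>
    obtain ⟨h1, h2, h3, h4⟩ := ih (by omega)
    have a1 : ∀ p, ((seqM M ask V T).run x (t + 1)).1 (Fin.castAdd P' p) =
        Sum.inl ((M.run x (t + 1)).1 p, t + 1, p) := by
      intro p
      rw [run_succ_fst, h1 p]
      show (if t < T then _ else _) = _
      rw [if_pos (by omega)]
      rw [seq_find_M M ask V T _ p (by omega : t < T) _ (M.run x t).2
        (fun c => by rw [h3 c])]
      rfl
    have a2 : ∀ p, ((seqM M ask V T).run x (t + 1)).1 (Fin.natAdd P p) =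
        Sum.inr (V.start p, t + 1) := by
      intro p
      rw [run_succ_fst, h2 p]
      show (if t < T then _ else _) = _
      rw [if_pos (by omega)]
    refine ⟨a1, a2, fun c => ?_, fun c => ?_⟩
    · rw [run_succ_snd, findSome_add, h3 c]
      simp only [a1, a2]
      rw [findSome_none (List.finRange P') _ (fun p => seq_wr_V0 M ask V T _ ht.le _),
        Option.or_none]
      simp only [seq_wr_MM M ask V T _ _ ht]
      rw [findSome_map, run_succ_snd]
      cases (List.finRange P).findSome? (fun p => M.wr c ((M.run x (t + 1)).1 p)) <;> rfl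
    · rw [run_succ_snd, findSome_add, h4 c]
      simp only [a1, a2]
      rw [findSome_none (List.finRange P') _ (fun p => seq_wr_V0 M ask V T _ ht.le _),
        Option.or_none,
        findSome_none (List.finRange P) _ (fun p => seq_wr_MV M ask V T _ _ ht _)]
      rfl

/-- The end of the first phase. -/
lemma seq_mid (hT : 1 ≤ T) :
    (∀ p, ((seqM M ask V T).run x T).1 (Fin.castAdd P' p) = Sum.inl ((M.run x T).1 p, T, p)) ∧
    (∀ p, ((seqM M ask V T).run x T).1 (Fin.natAdd P p) = Sum.inr (V.start p, T)) ∧
    (∀ c, ((seqM M ask V T).run x T).2 (embV M V c) =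
      (M.blank, (V.run (wordsOf M ask T x) 0).2 c)) := by
  obtain ⟨t, rfl⟩ : ∃ t, T = t + 1 := ⟨T - 1, by omega⟩
  obtain ⟨h1, h2, h3, h4⟩ := seq_phase1 M ask V (t + 1) x t (by omega)
  have a1 : ∀ p, ((seqM M ask V (t + 1)).run x (t + 1)).1 (Fin.castAdd P' p) =
      Sum.inl ((M.run x (t + 1)).1 p, t + 1, p) := by
    intro p
    rw [run_succ_fst, h1 p]
    show (if t < t + 1 then _ else _) = _
    rw [if_pos (by omega)]
    rw [seq_find_M M ask V (t + 1) _ p (by omega : t < t + 1) _ (M.run x t).2
      (fun c => by rw [h3 c])]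
    rfl
  have a2 : ∀ p, ((seqM M ask V (t + 1)).run x (t + 1)).1 (Fin.natAdd P p) =
      Sum.inr (V.start p, t + 1) := by
    intro p
    rw [run_succ_fst, h2 p]
    show (if t < t + 1 then _ else _) = _
    rw [if_pos (by omega)]
  refine ⟨a1, a2, fun c => ?_⟩
  rw [run_succ_snd, findSome_add, h4 c]
  simp only [a1, a2]
  rw [findSome_none (List.finRange P') _ (fun p => seq_wr_V0 M ask V (t + 1) _ le_rfl _),
    Option.or_none]
  simp only [seq_wr_copy]
  cases c with
  | inl p0 =>
    have h5 : (List.finRange P).findSome? (fun p => open Classical in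
        if (Sum.inl p : Fin P ⊕ V.A) = Sum.inl p0 then
          some (M.blank, V.word (ask p ((M.run x (t + 1)).1 p))) else none) =
        some (M.blank, V.word (ask p0 ((M.run x (t + 1)).1 p0))) := by
      classical
      have key : ∀ l : List (Fin P), p0 ∈ l → l.findSome? (fun p =>
          if (Sum.inl p : Fin P ⊕ V.A) = Sum.inl p0 then
          some (M.blank, V.word (ask p ((M.run x (t + 1)).1 p))) else none) =
        some (M.blank, V.word (ask p0 ((M.run x (t + 1)).1 p0))) := by
        intro l
        induction l with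
        | nil => intro h; simp at h
        | cons a l ih =>
          intro h
          rw [List.findSome?_cons]
          by_cases ha : a = p0
          · subst ha
            simp
          · rw [if_neg (fun h' => ha (Sum.inl_injective h'))]
            rcases List.mem_cons.1 h with h6 | h6
            · exact absurd h6.symm ha
            · exact ih h6
      have h6 := key (List.finRange P) (List.mem_finRange p0)
      convert h6
    rw [h5]
    rfl
  | inr a =>
    rw [findSome_none (List.finRange P) _ (fun p => by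
      rw [if_neg]
      exact Sum.inl_ne_inr)]
    rfl

/-- The second phase. -/
lemma seq_phase2 (hT : 1 ≤ T) (s : ℕ) :
    (∀ p, ((seqM M ask V T).run x (T + s)).1 (Fin.castAdd P' p) =
      Sum.inl ((M.run x T).1 p, T + s, p)) ∧
    (∀ p, ((seqM M ask V T).run x (T + s)).1 (Fin.natAdd P p) =
      Sum.inr ((V.run (wordsOf M ask T x) s).1 p, T + s)) ∧
    (∀ c, ((seqM M ask V T).run x (T + s)).2 (embV M V c) =
      (M.blank, (V.run (wordsOf M ask T x) s).2 c)) := by
  induction s with
  | zero =>
    obtain ⟨h1, h2, h3⟩ := seq_mid M ask V T x hT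
    exact ⟨h1, h2, h3⟩
  | succ s ih =>
    obtain ⟨h1, h2, h3⟩ := ih
    have a1 : ∀ p, ((seqM M ask V T).run x (T + (s + 1))).1 (Fin.castAdd P' p) =
        Sum.inl ((M.run x T).1 p, T + (s + 1), p) := by
      intro p
      show ((seqM M ask V T).run x ((T + s) + 1)).1 (Fin.castAdd P' p) = _
      rw [run_succ_fst, h1 p]
      show (if T + s < T then _ else _) = _
      rw [if_neg (by omega)]
      rfl
    have a2 : ∀ p, ((seqM M ask V T).run x (T + (s + 1))).1 (Fin.natAdd P p) =
        Sum.inr ((V.run (wordsOf M ask T x) (s + 1)).1 p, T + (s + 1)) := by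
      intro p
      show ((seqM M ask V T).run x ((T + s) + 1)).1 (Fin.natAdd P p) = _
      rw [run_succ_fst, h2 p]
      show (if T + s < T then _ else _) = _
      rw [if_neg (by omega), seq_find_V M ask V T _ (by omega : ¬ T + s < T) _
        (V.run (wordsOf M ask T x) s).2 (fun c => by rw [h3 c])]
      rfl
    refine ⟨a1, a2, fun c => ?_⟩
    show ((seqM M ask V T).run x ((T + s) + 1)).2 (embV M V c) = _
    rw [run_succ_snd, findSome_add, h3 c]
    have a1' : ∀ p, ((seqM M ask V T).run x (T + s + 1)).1 (Fin.castAdd P' p) =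
        Sum.inl ((M.run x T).1 p, T + (s + 1), p) := a1
    have a2' : ∀ p, ((seqM M ask V T).run x (T + s + 1)).1 (Fin.natAdd P p) =
        Sum.inr ((V.run (wordsOf M ask T x) (s + 1)).1 p, T + (s + 1)) := a2
    simp only [a1', a2']
    rw [findSome_none (List.finRange P) _
      (fun p => seq_wr_idle M ask V T _ _ (by omega : T < T + (s + 1)) _), Option.none_or]
    simp only [seq_wr_VV M ask V T _ (by omega : T < T + (s + 1))]
    rw [findSome_map, run_succ_snd]
    cases (List.finRange P').findSome? (fun p =>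
      V.wr c ((V.run (wordsOf M ask T x) (s + 1)).1 p)) <;> rfl

theorem seq_result (hT : 1 ≤ T) (s : ℕ) :
    (seqM M ask V T).result (T + s) x = (M.blank, V.result s (wordsOf M ask T x)) := by
  unfold Machine.result
  exact (seq_phase2 M ask V T x hT s).2.2 V.out

end Lemmas

lemma seq_lists {M : Machine W J P} {ask : Fin P → M.Q → W'} {V : Machine W' (Fin P) P'} {T k : ℕ}
    (hM : M.Lists k) (hV : V.Lists k) : (seqM M ask V T).Lists k := by
  rintro (q | q)
  · show (if q.2.1 < T then (M.query q.1).map (embM M V) else []).length ≤ k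
    split_ifs
    · rw [List.length_map]; exact hM q.1
    · simp
  · show (if q.2 < T then [] else (V.query q.1).map (embV M V)).length ≤ k
    split_ifs
    · simp
    · rw [List.length_map]; exact hV q.1

end Pool.Agent.W980.Esy
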