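import Mathlib
import Pool.Agent.W980.Esy.Seq2

/-!
Two machines side by side, and the comparison of two strings.
-/

set_option autoImplicit false

namespace Pool.Agent.W980.Esy

open Pool.Agent.W964.Wd

variable {W J : Type} {P P' : ℕ}

/-- The content of a cell of the first machine. -/
def back1 (M : Machine W J P) (N : Machine W J P') :
    ((J ⊕ J) ⊕ (M.A ⊕ N.A)) × (M.V × N.V) → Option ((J ⊕ M.A) × M.V)
  | (Sum.inl (Sum.inl j), v) => some (Sum.inl j, v.1)
  | (Sum.inr (Sum.inl a), v) => some (Sum.inr a, v.1)
  | (Sum.inl (Sum.inr _), _) => none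
  | (Sum.inr (Sum.inr _), _) => none

/-- The content of a cell of the second machine. -/
def back2 (M : Machine W J P) (N : Machine W J P') :
    ((J ⊕ J) ⊕ (M.A ⊕ N.A)) × (M.V × N.V) → Option ((J ⊕ N.A) × N.V)
  | (Sum.inl (Sum.inr j), v) => some (Sum.inl j, v.2)
  | (Sum.inr (Sum.inr a), v) => some (Sum.inr a, v.2)
  | (Sum.inl (Sum.inl _), _) => none
  | (Sum.inr (Sum.inl _), _) => none

/-- The two machines `M` and `N` side by side, each with its own copy of the input. -/
@[reducible] def prodM (M : Machine W J P) (N : Machine W J P') : Machine W (J ⊕ J) (P + P') where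
  Q := M.Q ⊕ N.Q
  A := M.A ⊕ N.A
  V := M.V × N.V
  word w := (M.word w, N.word w)
  blank := (M.blank, N.blank)
  start := Fin.addCases (fun p => Sum.inl (M.start p)) (fun p => Sum.inr (N.start p))
  query
    | Sum.inl q => (M.query q).map (Sum.map Sum.inl Sum.inl)
    | Sum.inr q => (N.query q).map (Sum.map Sum.inr Sum.inr)
  test
    | Sum.inl q => fun v => M.test q v.1
    | Sum.inr q => fun v => N.test q v.2
  next
    | Sum.inl q => fun o => Sum.inl (M.next q (o.bind (back1 M N)))
    | Sum.inr q => fun o => Sum.inr (N.next q (o.bind (back2 M N)))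
  write
    | Sum.inl q => (M.write q).map (fun w => (Sum.map Sum.inl Sum.inl w.1, (w.2, N.blank)))
    | Sum.inr q => (N.write q).map (fun w => (Sum.map Sum.inr Sum.inr w.1, (M.blank, w.2)))
  out := Sum.map Sum.inl Sum.inl M.out
  accept v := M.accept v.1

section Lemmas

variable (M : Machine W J P) (N : Machine W J P')

lemma prod_find1 (q : M.Q) (mem : (J ⊕ J) ⊕ (M.A ⊕ N.A) → M.V × N.V)
    (memM : J ⊕ M.A → M.V) (hmem : ∀ c, (mem (Sum.map Sum.inl Sum.inl c)).1 = memM c) :
    ((prodM M N).find (Sum.inl q) mem).bind (back1 M N) = M.find q memM := by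
  unfold Machine.find
  show ((((M.query q).map (Sum.map Sum.inl Sum.inl)).findSome? _).bind _) = _
  rw [List.findSome?_map]
  induction M.query q with
  | nil => rfl
  | cons c l ih =>
    rw [List.findSome?_cons, List.findSome?_cons]
    simp only [Function.comp]
    rw [hmem c]
    by_cases h : M.test q (memM c) = true
    · rw [if_pos h, if_pos h]
      simp only [Option.bind_some]
      cases c with
      | inl j => simp only [Sum.map_inl, back1]; rw [← hmem (Sum.inl j)]; rfl
      | inr a => simp only [Sum.map_inr, back1]; rw [← hmem (Sum.inr a)]; rfl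
    · rw [if_neg h, if_neg h]
      exact ih

lemma prod_find2 (q : N.Q) (mem : (J ⊕ J) ⊕ (M.A ⊕ N.A) → M.V × N.V)
    (memN : J ⊕ N.A → N.V) (hmem : ∀ c, (mem (Sum.map Sum.inr Sum.inr c)).2 = memN c) :
    ((prodM M N).find (Sum.inr q) mem).bind (back2 M N) = N.find q memN := by
  unfold Machine.find
  show ((((N.query q).map (Sum.map Sum.inr Sum.inr)).findSome? _).bind _) = _
  rw [List.findSome?_map]
  induction N.query q with
  | nil => rfl
  | cons c l ih =>
    rw [List.findSome?_cons, List.findSome?_cons]
    simp only [Function.comp]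
    rw [hmem c]
    by_cases h : N.test q (memN c) = true
    · rw [if_pos h, if_pos h]
      simp only [Option.bind_some]
      cases c with
      | inl j => simp only [Sum.map_inl, back2]; rw [← hmem (Sum.inl j)]; rfl
      | inr a => simp only [Sum.map_inr, back2]; rw [← hmem (Sum.inr a)]; rfl
    · rw [if_neg h, if_neg h]
      exact ih

lemma prod_wr11 (q : M.Q) (c : J ⊕ M.A) :
    (prodM M N).wr (Sum.map Sum.inl Sum.inl c) (Sum.inl q) =
      (M.wr c q).map (fun v => (v, N.blank)) := by
  classical
  unfold Machine.wr
  show ((M.write q).map _).bind _ = _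
  cases h : M.write q with
  | none => rfl
  | some w =>
    simp only [Option.map_some, Option.bind_some]
    by_cases hw : w.1 = c
    · rw [if_pos (by rw [hw]), if_pos hw]; rfl
    · rw [if_neg, if_neg hw]
      · rfl
      · intro h'
        apply hw
        rcases hw1 : w.1 with j | a <;> rcases c with j' | a' <;> rw [hw1] at h' <;> simp_all

lemma prod_wr22 (q : N.Q) (c : J ⊕ N.A) :
    (prodM M N).wr (Sum.map Sum.inr Sum.inr c) (Sum.inr q) =
      (N.wr c q).map (fun v => (M.blank, v)) := by
  classical
  unfold Machine.wr
  show ((N.write q).map _).bind _ = _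
  cases h : N.write q with
  | none => rfl
  | some w =>
    simp only [Option.map_some, Option.bind_some]
    by_cases hw : w.1 = c
    · rw [if_pos (by rw [hw]), if_pos hw]; rfl
    · rw [if_neg, if_neg hw]
      · rfl
      · intro h'
        apply hw
        rcases hw1 : w.1 with j | a <;> rcases c with j' | a' <;> rw [hw1] at h' <;> simp_all

lemma prod_wr12 (q : N.Q) (c : J ⊕ M.A) :
    (prodM M N).wr (Sum.map Sum.inl Sum.inl c) (Sum.inr q) = none := by
  classical
  unfold Machine.wr
  show ((N.write q).map _).bind _ = _
  cases h : N.write q with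
  | none => rfl
  | some w =>
    simp only [Option.map_some, Option.bind_some]
    rw [if_neg]
    intro h'
    rcases hw1 : w.1 with j | a <;> rcases c with j' | a' <;> rw [hw1] at h' <;> simp at h'

lemma prod_wr21 (q : M.Q) (c : J ⊕ N.A) :
    (prodM M N).wr (Sum.map Sum.inr Sum.inr c) (Sum.inl q) = none := by
  classical
  unfold Machine.wr
  show ((M.write q).map _).bind _ = _
  cases h : M.write q with
  | none => rfl
  | some w =>
    simp only [Option.map_some, Option.bind_some]
    rw [if_neg]
    intro h'
    rcases hw1 : w.1 with j | a <;> rcases c with j' | a' <;> rw [hw1] at h' <;> simp at h'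

lemma prod_run (x : J → W) (t : ℕ) :
    (∀ p, ((prodM M N).run (Sum.elim x x) t).1 (Fin.castAdd P' p) = Sum.inl ((M.run x t).1 p)) ∧
    (∀ p, ((prodM M N).run (Sum.elim x x) t).1 (Fin.natAdd P p) = Sum.inr ((N.run x t).1 p)) ∧
    (∀ c, (((prodM M N).run (Sum.elim x x) t).2 (Sum.map Sum.inl Sum.inl c)).1 =
      (M.run x t).2 c) ∧
    (∀ c, (((prodM M N).run (Sum.elim x x) t).2 (Sum.map Sum.inr Sum.inr c)).2 =
      (N.run x t).2 c) := by
  induction t with
  | zero =>
    refine ⟨fun p => ?_, fun p => ?_, fun c => ?_, fun c => ?_⟩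
    · exact Fin.addCases_left (motive := fun _ => M.Q ⊕ N.Q)
        (left := fun p => Sum.inl (M.start p)) (right := fun p => Sum.inr (N.start p)) p
    · exact Fin.addCases_right (motive := fun _ => M.Q ⊕ N.Q)
        (left := fun p => Sum.inl (M.start p)) (right := fun p => Sum.inr (N.start p)) p
    · cases c <;> rfl
    · cases c <;> rfl
  | succ t ih =>
    obtain ⟨h1, h2, h3, h4⟩ := ih
    have a1 : ∀ p, ((prodM M N).run (Sum.elim x x) (t + 1)).1 (Fin.castAdd P' p) =
        Sum.inl ((M.run x (t + 1)).1 p) := by
      intro p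
      rw [run_succ_fst, h1 p]
      show Sum.inl (M.next _ _) = _
      rw [prod_find1 M N _ _ (M.run x t).2 h3]
      rfl
    have a2 : ∀ p, ((prodM M N).run (Sum.elim x x) (t + 1)).1 (Fin.natAdd P p) =
        Sum.inr ((N.run x (t + 1)).1 p) := by
      intro p
      rw [run_succ_fst, h2 p]
      show Sum.inr (N.next _ _) = _
      rw [prod_find2 M N _ _ (N.run x t).2 h4]
      rfl
    refine ⟨a1, a2, fun c => ?_, fun c => ?_⟩
    · rw [run_succ_snd, findSome_add]
      simp only [a1, a2]
      rw [findSome_none (List.finRange P') _ (fun p => prod_wr12 M N _ _), Option.or_none]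
      simp only [prod_wr11 M N]
      rw [findSome_map, run_succ_snd]
      cases (List.finRange P).findSome? (fun p => M.wr c ((M.run x (t + 1)).1 p)) with
      | none => exact h3 c
      | some v => rfl
    · rw [run_succ_snd, findSome_add]
      simp only [a1, a2]
      rw [findSome_none (List.finRange P) _ (fun p => prod_wr21 M N _ _), Option.none_or]
      simp only [prod_wr22 M N]
      rw [findSome_map, run_succ_snd]
      cases (List.finRange P').findSome? (fun p => N.wr c ((N.run x (t + 1)).1 p)) with
      | none => exact h4 c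
      | some v => rfl

end Lemmas

lemma prod_lists {M : Machine W J P} {N : Machine W J P'} {k : ℕ}
    (hM : M.Lists k) (hN : N.Lists k) : (prodM M N).Lists k := by
  rintro (q | q)
  · show ((M.query q).map _).length ≤ k
    rw [List.length_map]; exact hM q
  · show ((N.query q).map _).length ≤ k
    rw [List.length_map]; exact hN q

/-! ### Comparison -/

/-- The comparison of the two halves of a string: the processor `p` reads the words `p` and
`P + p` and writes `true` into the output cell if they differ. -/
@[reducible] noncomputable def cmpM (W : Type) (P : ℕ) : Machine W (Fin (P + P)) P where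
  Q := Fin P × ℕ × Option W × Bool
  A := Unit
  V := Option W × Bool
  word w := (some w, false)
  blank := (none, false)
  start p := (p, 0, none, false)
  query q := if q.2.1 = 0 then [Sum.inl (Fin.castAdd P q.1)] else [Sum.inl (Fin.natAdd P q.1)]
  test _ _ := true
  next q o := open Classical in if q.2.1 = 0 then (q.1, 1, o.bind (fun z => z.2.1), false)
    else (q.1, 2, none, decide (o.bind (fun z => z.2.1) ≠ q.2.2.1))
  write q := if q.2.2.2 = true then some (Sum.inr (), (none, true)) else none
  out := Sum.inr ()
  accept v := v.2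

lemma cmp_run (W : Type) (P : ℕ) (y : Fin (P + P) → W) :
    ((cmpM W P).run y 1).1 = (fun p => (p, 1, some (y (Fin.castAdd P p)), false)) ∧
    ((cmpM W P).run y 1).2 = Sum.elim (fun j => (some (y j), false)) (fun _ => (none, false)) := by
  have h1 : ((cmpM W P).run y 1).1 = (fun p => (p, 1, some (y (Fin.castAdd P p)), false)) := by
    funext p
    rw [run_succ_fst]
    rfl
  refine ⟨h1, ?_⟩
  funext c
  rw [run_succ_snd, h1]
  rw [findSome_none (List.finRange P) _ (fun p => by
    unfold Machine.wr
    rfl)]
  cases c <;> rfl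

lemma cmp_wr_true (W : Type) (P : ℕ) (p : Fin P) :
    (cmpM W P).wr (Sum.inr ()) (p, 2, none, true) = some (none, true) := by
  unfold Machine.wr
  simp

lemma cmp_wr_false (W : Type) (P : ℕ) (p : Fin P) :
    (cmpM W P).wr (Sum.inr ()) (p, 2, none, false) = none := by
  unfold Machine.wr
  simp

open Classical in
lemma cmp_result (W : Type) (P : ℕ) (y : Fin (P + P) → W) :
    (cmpM W P).result 2 y =
      (none, decide (∃ p : Fin P, y (Fin.natAdd P p) ≠ y (Fin.castAdd P p))) := by
  obtain ⟨h1, h2⟩ := cmp_run W P y
  have h3 : ((cmpM W P).run y 2).1 =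
      (fun p => (p, 2, none, decide (some (y (Fin.natAdd P p)) ≠ some (y (Fin.castAdd P p))))) := by
    funext p
    rw [run_succ_fst, h1, h2]
    rfl
  obtain ⟨d, hd⟩ : ∃ d : Fin P → Bool, d = fun p =>
      decide (some (y (Fin.natAdd P p)) ≠ some (y (Fin.castAdd P p))) := ⟨_, rfl⟩
  have h3' : ((cmpM W P).run y 2).1 = (fun p => (p, 2, none, d p)) := by rw [h3, hd]
  have hd' : ∀ p, d p = true ↔ y (Fin.natAdd P p) ≠ y (Fin.castAdd P p) := by
    intro p
    rw [hd]
    simp only [decide_eq_true_eq, ne_eq, Option.some.injEq]
  unfold Machine.result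
  rw [run_succ_snd, h3', h2]
  by_cases h : ∃ p : Fin P, y (Fin.natAdd P p) ≠ y (Fin.castAdd P p)
  · obtain ⟨p, hp⟩ := h
    have key : (List.finRange P).findSome? (fun p => (cmpM W P).wr (Sum.inr ())
        (p, 2, (none : Option W), d p)) = some (none, true) := by
      have aux : ∀ l : List (Fin P), p ∈ l → l.findSome? (fun p => (cmpM W P).wr (Sum.inr ())
        (p, 2, (none : Option W), d p)) = some (none, true) := by
        intro l
        induction l with
        | nil => intro h; simp at h
        | cons a l ih =>
          intro h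
          rw [List.findSome?_cons]
          cases hda : d a with
          | false =>
            rw [cmp_wr_false]
            rcases List.mem_cons.1 h with h6 | h6
            · subst h6
              rw [(hd' p).2 hp] at hda
              cases hda
            · exact ih h6
          | true => rw [cmp_wr_true]
      exact aux _ (List.mem_finRange p)
    have e1 : (cmpM W P).out = Sum.inr () := rfl
    rw [e1, key, decide_eq_true ⟨p, hp⟩]
    rfl
  · have e1 : (cmpM W P).out = Sum.inr () := rfl
    have e2 : ∀ p, (cmpM W P).wr (Sum.inr ()) (p, 2, (none : Option W), d p) = none := by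
      intro p
      cases hda : d p with
      | false => rw [cmp_wr_false]
      | true => exact absurd ⟨p, (hd' p).1 hda⟩ h
    rw [e1, findSome_none (List.finRange P) _ e2]
    rw [decide_eq_false h]
    rfl

lemma cmp_lists (W : Type) (P k : ℕ) (hk : 1 ≤ k) : (cmpM W P).Lists k := by
  intro q
  show (if q.2.1 = 0 then [Sum.inl (Fin.castAdd P q.1)] else
    [Sum.inl (Fin.natAdd P q.1)] : List (Fin (P + P) ⊕ Unit)).length ≤ k
  split_ifs <;> simpa using hk

end Pool.Agent.W980.Esy
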