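import Mathlib
import Pool.Agent.W980.Esy.Core

/-!
Two runs of a reduction to a disjoint pair that no separator tells apart.
-/

set_option autoImplicit false

namespace Pool.Agent.W980.Esy

open Finset H568R2 H592R3 Pool.Agent.W964.Pram

open Classical in
/-- The answers in a run with the oracle `S`. -/
noncomputable def ansL {𝒳 Y : Type} (y : List Bool → 𝒳 → Y) (S : Set Y) (X : 𝒳) : ℕ → List Bool
  | 0 => []
  | i + 1 => ansL y S X i ++ [decide (y (ansL y S X i) X ∈ S)]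

lemma ansL_length {𝒳 Y : Type} (y : List Bool → 𝒳 → Y) (S : Set Y) (X : 𝒳) (i : ℕ) :
    (ansL y S X i).length = i := by
  induction i with
  | zero => rfl
  | succ i ih =>
    show (ansL y S X i ++ [_]).length = _
    rw [List.length_append, ih]
    rfl

lemma ansL_congr {𝒳 Y : Type} (y : List Bool → 𝒳 → Y) (S S' : Set Y) (X X' : 𝒳) (k : ℕ)
    (h : ∀ i < k, (y (ansL y S X i) X' ∈ S' ↔ y (ansL y S X i) X ∈ S)) :
    ∀ i ≤ k, ansL y S' X' i = ansL y S X i := by
  classical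
  intro i
  induction i with
  | zero => intro _; rfl
  | succ i ih =>
    intro hi
    have ih' := ih (by omega)
    show ansL y S' X' i ++ [_] = ansL y S X i ++ [_]
    rw [ih']
    congr 2
    rw [decide_eq_decide]
    exact h i (by omega)

variable {m r N : ℕ}

theorem core_run {I W Γ : Type} (s : Fin m → Fin r → Fin m) (A B : Set (I → W))
    (hAB : Disjoint A B)
    (pa pb : Γ → (I → W) → Bool) (hA : ∀ u, u ∈ A ↔ ∃ γ, pa γ u = true)
    (hB : ∀ u, u ∈ B ↔ ∃ γ, pb γ u = true)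
    (y : List Bool → ((Fin m × (Fin r → Fin N)) → Bool) → (I → W))
    (fin : List Bool → ((Fin m × (Fin r → Fin N)) → Bool) → Bool)
    (X : (Fin m × (Fin r → Fin N)) → Bool) (k : ℕ)
    (τ lam : ℝ) (hτ : 0 ≤ τ) (hlam : 0 < lam) (hlam2 : 4 * τ * (N : ℝ) ^ m ≤ lam ^ 2)
    (h1 : ∀ z, z.length < k → ∀ γ, nch s (fun X => pa γ (y z X)) X ≤ τ ∧
      nch s (fun X => pb γ (y z X)) X ≤ τ)
    (h2 : ∀ z z', z.length < k → z'.length < k → nch s (fun X => y z X = y z' X) X ≤ τ)
    (h3 : ∀ z, z.length < k → ∀ i, nch s (fun X => y z X i) X ≤ τ)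
    (h4 : ∀ z, z.length = k → nch s (fin z) X ≤ τ)
    (h5 : ∀ z, z.length < k → cnt (fun a : Fin m → Fin N => ∃ γ,
      τ < nch s (fun X => pa γ (y z X)) (pl s a X) ∨
      τ < nch s (fun X => pb γ (y z X)) (pl s a X)) ≤ τ)
    (P0 : (Fin m → Fin N) → Prop)
    (hP0 : k * (4 * τ + 2 * lam) + (k * k) * (2 * τ) + τ < cnt P0) :
    ∃ a, P0 a ∧ ∃ S : Set (I → W), A ⊆ S ∧ Disjoint S B ∧
      fin (ansL y S X k) X = fin (ansL y S (pl s a X) k) (pl s a X) := by
  classical
  obtain ⟨SX, hSX⟩ : ∃ SX : Set (I → W), SX = A ∪ {u | u ∉ B ∧ ∃ z, z.length < k ∧ y z X = u ∧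
      lam < cnt (fun a : Fin m → Fin N => y z (pl s a X) ∈ A)} := ⟨_, rfl⟩
  obtain ⟨z, hz⟩ : ∃ z : ℕ → List Bool, z = ansL y SX X := ⟨_, rfl⟩
  have hzl : ∀ i, (z i).length = i := fun i => by rw [hz]; exact ansL_length y SX X i
  have hSXB : ∀ u ∈ SX, u ∉ B := by
    intro u hu
    rw [hSX] at hu
    rcases hu with hu | hu
    · exact Set.disjoint_left.1 hAB hu
    · exact hu.1
  have hASX : A ⊆ SX := by rw [hSX]; exact Set.subset_union_left
  -- bad assignments
  have c1 : ∀ i < k, cnt (fun a : Fin m → Fin N => y (z i) X ∈ A ∧ y (z i) (pl s a X) ∉ A) ≤ τ := by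
    intro i hi
    by_cases hu : y (z i) X ∈ A
    · obtain ⟨γ, hγ⟩ := (hA _).1 hu
      refine le_trans ?_ (h1 (z i) (by rw [hzl]; exact hi) γ).1
      rw [nch_eq]
      apply cnt_mono
      rintro a ⟨_, ha⟩ h'
      exact ha ((hA _).2 ⟨γ, by rw [← h', hγ]⟩)
    · refine le_trans (le_of_eq ?_) hτ
      exact Finset.sum_eq_zero fun a _ => ind_false (fun h => hu h.1)
  have c2 : ∀ i < k, cnt (fun a : Fin m → Fin N => y (z i) X ∈ B ∧ y (z i) (pl s a X) ∉ B) ≤ τ := by
    intro i hi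
    by_cases hu : y (z i) X ∈ B
    · obtain ⟨γ, hγ⟩ := (hB _).1 hu
      refine le_trans ?_ (h1 (z i) (by rw [hzl]; exact hi) γ).2
      rw [nch_eq]
      apply cnt_mono
      rintro a ⟨_, ha⟩ h'
      exact ha ((hB _).2 ⟨γ, by rw [← h', hγ]⟩)
    · refine le_trans (le_of_eq ?_) hτ
      exact Finset.sum_eq_zero fun a _ => ind_false (fun h => hu h.1)
  have c3 : ∀ i < k, cnt (fun a : Fin m → Fin N => (y (z i) X ∉ SX ∧ y (z i) X ∉ B) ∧
      y (z i) (pl s a X) ∈ A) ≤ lam := by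
    intro i hi
    by_cases hu : y (z i) X ∉ SX ∧ y (z i) X ∉ B
    · by_contra hcon
      push Not at hcon
      apply hu.1
      rw [hSX]
      right
      refine ⟨hu.2, z i, by rw [hzl]; exact hi, rfl, lt_of_lt_of_le hcon ?_⟩
      exact cnt_mono fun a ha => ha.2
    · refine le_trans (le_of_eq ?_) hlam.le
      exact Finset.sum_eq_zero fun a _ => ind_false (fun h => hu h.1)
  have c4 : ∀ i < k, cnt (fun a : Fin m → Fin N => (y (z i) X ∈ SX ∧ y (z i) X ∉ A) ∧
      y (z i) (pl s a X) ∈ B) ≤ lam + τ := by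
    intro i hi
    by_cases hu : y (z i) X ∈ SX ∧ y (z i) X ∉ A
    · have hu1 := hu.1
      rw [hSX] at hu1
      rcases hu1 with hu1 | ⟨_, z', hz', hyz, hc⟩
      · exact absurd hu1 hu.2
      · have hd := double s A B hAB pa pb hA hB (y z') X τ hτ (h5 z' hz')
        have hlight : cnt (fun a : Fin m → Fin N => y z' (pl s a X) ∈ B) ≤ lam := by
          by_contra hcon
          push Not at hcon
          have h6 : lam ^ 2 < cnt (fun a : Fin m → Fin N => y z' (pl s a X) ∈ A) *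
              cnt (fun a : Fin m → Fin N => y z' (pl s a X) ∈ B) := by
            rw [sq]
            exact mul_lt_mul hc hcon.le hlam (cnt_nonneg _)
          linarith
        have heq := h2 (z i) z' (by rw [hzl]; exact hi) hz'
        rw [nch_eq] at heq
        refine le_trans (cnt_mono (q := fun a => y z' (pl s a X) ∈ B ∨
          (y (z i) X = y z' X) ≠ (y (z i) (pl s a X) = y z' (pl s a X))) ?_)
          ((cnt_or _ _).trans (add_le_add hlight heq))
        rintro a ⟨_, ha⟩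
        by_cases h7 : y (z i) (pl s a X) = y z' (pl s a X)
        · left; rw [← h7]; exact ha
        · right
          intro h8
          apply h7
          rw [← h8]
          exact hyz.symm
    · refine le_trans (le_of_eq ?_) (by linarith : (0 : ℝ) ≤ lam + τ)
      exact Finset.sum_eq_zero fun a _ => ind_false (fun h => hu h.1)
  have c5 : ∀ i < k, ∀ j < k, cnt (fun a : Fin m → Fin N => y (z i) X ≠ y (z j) X ∧
      y (z i) (pl s a X) = y (z j) (pl s a X)) ≤ τ := by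
    intro i hi j hj
    by_cases hu : y (z i) X ≠ y (z j) X
    · refine le_trans ?_ (h2 (z i) (z j) (by rw [hzl]; exact hi) (by rw [hzl]; exact hj))
      rw [nch_eq]
      apply cnt_mono
      rintro a ⟨_, ha⟩ h'
      exact hu (by rw [h']; exact ha)
    · refine le_trans (le_of_eq ?_) hτ
      exact Finset.sum_eq_zero fun a _ => ind_false (fun h => hu h.1)
  have c6 : ∀ i < k, ∀ j < k, cnt (fun a : Fin m → Fin N => y (z i) X ≠ y (z j) X ∧
      y (z j) (pl s a X) = y (z i) X) ≤ τ := by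
    intro i hi j hj
    by_cases hu : y (z i) X ≠ y (z j) X
    · obtain ⟨p, hp⟩ := Function.ne_iff.1 hu
      refine le_trans ?_ (h3 (z j) (by rw [hzl]; exact hj) p)
      rw [nch_eq]
      apply cnt_mono
      rintro a ⟨_, ha⟩ h'
      apply hp
      rw [h', ha]
    · refine le_trans (le_of_eq ?_) hτ
      exact Finset.sum_eq_zero fun a _ => ind_false (fun h => hu h.1)
  have c7 := h4 (z k) (hzl k)
  rw [nch_eq] at c7
  -- all bad assignments
  obtain ⟨Q1, hQ1⟩ : ∃ Q1 : ℕ → (Fin m → Fin N) → Prop, Q1 = fun i a =>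
      ((y (z i) X ∈ A ∧ y (z i) (pl s a X) ∉ A) ∨ (y (z i) X ∈ B ∧ y (z i) (pl s a X) ∉ B)) ∨
      (((y (z i) X ∉ SX ∧ y (z i) X ∉ B) ∧ y (z i) (pl s a X) ∈ A) ∨
      ((y (z i) X ∈ SX ∧ y (z i) X ∉ A) ∧ y (z i) (pl s a X) ∈ B)) := ⟨_, rfl⟩
  obtain ⟨Q2, hQ2⟩ : ∃ Q2 : ℕ → ℕ → (Fin m → Fin N) → Prop, Q2 = fun i j a =>
      (y (z i) X ≠ y (z j) X ∧ y (z i) (pl s a X) = y (z j) (pl s a X)) ∨
      (y (z i) X ≠ y (z j) X ∧ y (z j) (pl s a X) = y (z i) X) := ⟨_, rfl⟩
  have d1 : ∀ i ∈ Finset.range k, cnt (Q1 i) ≤ 4 * τ + 2 * lam := by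
    intro i hi
    have hi' := Finset.mem_range.1 hi
    rw [hQ1]
    refine (cnt_or _ _).trans ?_
    have e1 := (cnt_or (fun a : Fin m → Fin N => y (z i) X ∈ A ∧ y (z i) (pl s a X) ∉ A)
      (fun a => y (z i) X ∈ B ∧ y (z i) (pl s a X) ∉ B)).trans (add_le_add (c1 i hi') (c2 i hi'))
    have e2 := (cnt_or (fun a : Fin m → Fin N => (y (z i) X ∉ SX ∧ y (z i) X ∉ B) ∧
      y (z i) (pl s a X) ∈ A) (fun a => (y (z i) X ∈ SX ∧ y (z i) X ∉ A) ∧
      y (z i) (pl s a X) ∈ B)).trans (add_le_add (c3 i hi') (c4 i hi'))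
    linarith
  have d2 : ∀ i ∈ Finset.range k, ∀ j ∈ Finset.range k, cnt (Q2 i j) ≤ 2 * τ := by
    intro i hi j hj
    rw [hQ2]
    refine (cnt_or _ _).trans ?_
    have := c5 i (Finset.mem_range.1 hi) j (Finset.mem_range.1 hj)
    have := c6 i (Finset.mem_range.1 hi) j (Finset.mem_range.1 hj)
    linarith
  obtain ⟨Bad, hBad⟩ : ∃ Bad : (Fin m → Fin N) → Prop, Bad = fun a =>
      ((∃ i ∈ Finset.range k, Q1 i a) ∨ (∃ i ∈ Finset.range k, ∃ j ∈ Finset.range k, Q2 i j a)) ∨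
      fin (z k) X ≠ fin (z k) (pl s a X) := ⟨_, rfl⟩
  have hBadc : cnt Bad < cnt P0 := by
    refine lt_of_le_of_lt ?_ hP0
    rw [hBad]
    refine (cnt_or _ _).trans (add_le_add ((cnt_or _ _).trans (add_le_add ?_ ?_)) c7)
    · refine (cnt_exists _ _).trans ((Finset.sum_le_card_nsmul _ _ _ d1).trans (le_of_eq ?_))
      rw [Finset.card_range, nsmul_eq_mul]
    · refine (cnt_exists _ _).trans ((Finset.sum_le_card_nsmul _ _ (k * (2 * τ)) ?_).trans
        (le_of_eq ?_))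
      · intro i hi
        refine (cnt_exists _ _).trans ((Finset.sum_le_card_nsmul _ _ _ (d2 i hi)).trans
          (le_of_eq ?_))
        rw [Finset.card_range, nsmul_eq_mul]
      · rw [Finset.card_range, nsmul_eq_mul]
        ring
  obtain ⟨a, ha0, ha⟩ := cnt_exists_of_lt hBadc
  rw [hBad] at ha
  push Not at ha
  obtain ⟨⟨g1, g2⟩, g3⟩ := ha
  refine ⟨a, ha0, ?_⟩
  -- the properties of `a`
  have g1' : ∀ i < k, ¬ Q1 i a := fun i hi => g1 i (Finset.mem_range.2 hi)
  have g2' : ∀ i < k, ∀ j < k, ¬ Q2 i j a := fun i hi j hj =>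
    g2 i (Finset.mem_range.2 hi) j (Finset.mem_range.2 hj)
  rw [hQ1] at g1'
  rw [hQ2] at g2'
  have p1 : ∀ i < k, y (z i) X ∈ A → y (z i) (pl s a X) ∈ A := by
    intro i hi h
    by_contra hcon
    exact g1' i hi (Or.inl (Or.inl ⟨h, hcon⟩))
  have p2 : ∀ i < k, y (z i) X ∈ B → y (z i) (pl s a X) ∈ B := by
    intro i hi h
    by_contra hcon
    exact g1' i hi (Or.inl (Or.inr ⟨h, hcon⟩))
  have p3 : ∀ i < k, y (z i) X ∉ SX → y (z i) X ∉ B → y (z i) (pl s a X) ∉ A := by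
    intro i hi h h' hcon
    exact g1' i hi (Or.inr (Or.inl ⟨⟨h, h'⟩, hcon⟩))
  have p4 : ∀ i < k, y (z i) X ∈ SX → y (z i) X ∉ A → y (z i) (pl s a X) ∉ B := by
    intro i hi h h' hcon
    exact g1' i hi (Or.inr (Or.inr ⟨⟨h, h'⟩, hcon⟩))
  have p5 : ∀ i < k, ∀ j < k, y (z i) (pl s a X) = y (z j) (pl s a X) →
      y (z i) X = y (z j) X := by
    intro i hi j hj h
    by_contra hcon
    exact g2' i hi j hj (Or.inl ⟨hcon, h⟩)
  have p6 : ∀ i < k, ∀ j < k, y (z j) (pl s a X) = y (z i) X → y (z i) X = y (z j) X := by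
    intro i hi j hj h
    by_contra hcon
    exact g2' i hi j hj (Or.inr ⟨hcon, h⟩)
  -- the separator
  obtain ⟨S, hS⟩ : ∃ S : Set (I → W), S = A ∪ {u | ∃ i < k, y (z i) X ∈ SX ∧
      (u = y (z i) X ∨ u = y (z i) (pl s a X))} := ⟨_, rfl⟩
  have q1 : ∀ i < k, (y (z i) X ∈ S ↔ y (z i) X ∈ SX) := by
    intro i hi
    constructor
    · intro h
      rw [hS] at h
      rcases h with h | ⟨j, hj, hj1, h | h⟩
      · exact hASX h
      · rw [h]; exact hj1
      · rw [p6 i hi j hj h.symm]; exact hj1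
    · intro h
      rw [hS]
      exact Or.inr ⟨i, hi, h, Or.inl rfl⟩
  have q2 : ∀ i < k, (y (z i) (pl s a X) ∈ S ↔ y (z i) X ∈ SX) := by
    intro i hi
    constructor
    · intro h
      rw [hS] at h
      rcases h with h | ⟨j, hj, hj1, h | h⟩
      · by_contra hcon
        by_cases hb : y (z i) X ∈ B
        · exact Set.disjoint_left.1 hAB h (p2 i hi hb)
        · exact p3 i hi hcon hb h
      · rw [← p6 j hj i hi h]; exact hj1
      · rw [p5 i hi j hj h]; exact hj1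
    · intro h
      rw [hS]
      exact Or.inr ⟨i, hi, h, Or.inr rfl⟩
  have q3 : Disjoint S B := by
    rw [Set.disjoint_left]
    intro u hu
    rw [hS] at hu
    rcases hu with hu | ⟨i, hi, hi1, hu | hu⟩
    · exact Set.disjoint_left.1 hAB hu
    · rw [hu]; exact hSXB _ hi1
    · rw [hu]
      by_cases h : y (z i) X ∈ A
      · exact Set.disjoint_left.1 hAB (p1 i hi h)
      · exact p4 i hi hi1 h
  refine ⟨S, by rw [hS]; exact Set.subset_union_left, q3, ?_⟩
  have r1 : ansL y S X k = z k := by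
    rw [hz]
    refine ansL_congr y SX S X X k (fun i hi => ?_) k le_rfl
    have := q1 i hi
    rw [hz] at this
    exact this
  have r2 : ansL y S (pl s a X) k = z k := by
    rw [hz]
    refine ansL_congr y SX S X (pl s a X) k (fun i hi => ?_) k le_rfl
    have := q2 i hi
    rw [hz] at this
    exact this
  rw [r1, r2]
  exact g3

end Pool.Agent.W980.Esy
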