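import Mathlib
import Pool.Agent.W980.Esy.Prod
import Pool.Agent.W980.Esy.Defs
import Pool.Agent.W980.Esy.Run
import Pool.Agent.W980.Esy.Prob
import Pool.Agent.W964.Pram.Ip.MomHard

/-!
The functions that occur in a parallel Turing reduction are computed by parallel machines.
-/

set_option autoImplicit false

namespace Pool.Agent.W980.Esy

open Finset H568R2 H592R3

/-- The same machine as a machine whose inputs are bits. -/
@[reducible] def toPram {J : Type} {P : ℕ} (M : Pool.Agent.W964.Wd.Machine Bool J P) :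
    Pool.Agent.W964.Pram.Machine J P where
  Q := M.Q
  A := M.A
  V := M.V
  bit := M.word
  blank := M.blank
  start := M.start
  query := M.query
  test := M.test
  next := M.next
  write := M.write
  out := M.out
  accept := M.accept

lemma toPram_run {J : Type} {P : ℕ} (M : Pool.Agent.W964.Wd.Machine Bool J P) (x : J → Bool)
    (t : ℕ) : (toPram M).run x t = M.run x t := by
  induction t with
  | zero => rfl
  | succ t ih =>
    have h1 : ((toPram M).run x (t + 1)).1 = (M.run x (t + 1)).1 := by
      funext p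
      show (toPram M).next (((toPram M).run x t).1 p)
        ((toPram M).find (((toPram M).run x t).1 p) ((toPram M).run x t).2) = _
      rw [ih]
      rfl
    refine Prod.ext h1 ?_
    funext c
    show ((List.finRange P).findSome? (fun p => (toPram M).wr c
      (((toPram M).run x (t + 1)).1 p))).getD (((toPram M).run x t).2 c) = _
    rw [h1, ih]
    rfl

lemma toPram_res {J : Type} {P : ℕ} (M : Pool.Agent.W964.Wd.Machine Bool J P) (x : J → Bool)
    (t : ℕ) : (toPram M).res t x = M.result t x := by
  unfold Pool.Agent.W964.Pram.Machine.res Pool.Agent.W964.Wd.Machine.result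
  rw [toPram_run]

open Pool.Agent.W964.Wd

section Bounds

open Pool.Agent.W964.Pram (nch nch_nonneg)

variable {m r N : ℕ} {J W : Type} {P : ℕ}

/-- The hypothesis on the moments: machines with few processors change rarely. -/
def MomBound (s : Fin m → Fin r → Fin m) (N : ℕ) (p R : ℝ) (κ T' P₀ K : ℕ) : Prop :=
  ∀ (J : Type) (σ : ((Fin m × (Fin r → Fin N)) → Bool) → (J → Bool)),
    (∀ j, Junta 1 (fun x => σ x j)) → ∀ (P : ℕ) (M : Machine Bool J P), P ≤ P₀ → M.Lists K →
    Ex (vp p) (fun X => nch s (fun X => M.result T' (σ X)) X ^ κ) ≤ R ^ κ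

lemma mom_comp {s : Fin m → Fin r → Fin m} {p R : ℝ} (hp0 : 0 ≤ p) (hp1 : p ≤ 1)
    {κ T' P₀ K : ℕ} (hM : MomBound s N p R κ T' P₀ K)
    {J : Type} (σ : ((Fin m × (Fin r → Fin N)) → Bool) → (J → Bool))
    (hσ : ∀ j, Junta 1 (fun x => σ x j)) {P : ℕ} (M : Machine Bool J P) (hP : P ≤ P₀)
    (hL : M.Lists K) {α : Type} (f : ((Fin m × (Fin r → Fin N)) → Bool) → α) (φ : M.V → α)
    (hf : ∀ X, f X = φ (M.result T' (σ X))) :
    Ex (vp p) (fun X => nch s f X ^ κ) ≤ R ^ κ := by
  refine (Ex_mono (vp_nonneg hp0 hp1) ?_).trans (hM J σ hσ P M hP hL)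
  intro X
  apply pow_le_pow_left₀ (nch_nonneg s _ X)
  have h1 : f = fun X => φ (M.result T' (σ X)) := funext hf
  rw [h1]
  exact nch_comp s (fun X => M.result T' (σ X)) φ X

variable (R : Reduction J W P)

/-- The idle machine, whose output cell is the input cell `p`. -/
@[reducible] def idleM (W : Type) {P : ℕ} (p : Fin P) : Machine W (Fin P) 0 where
  Q := Unit
  A := Unit
  V := Option W
  word := some
  blank := none
  start := fun _ => ()
  query := fun _ => []
  test := fun _ _ => true
  next := fun _ _ => ()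
  write := fun _ => none
  out := Sum.inl p
  accept := fun _ => true

lemma idle_result {p : Fin P} (y : Fin P → W) (t : ℕ) :
    (idleM W p).result t y = some (y p) := by
  have h : ∀ t, ((idleM W p).run y t).2 (Sum.inl p) = some (y p) := by
    intro t
    induction t with
    | zero => rfl
    | succ t ih =>
      rw [run_succ_snd, ih]
      rfl
  exact h t

open Classical in
/-- All functions of a reduction to a pair. -/
theorem red_bounds {s : Fin m → Fin r → Fin m} {p Rr : ℝ} (hp0 : 0 ≤ p) (hp1 : p ≤ 1)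
    {κ T P₀ P' K : ℕ} (hT : 1 ≤ T) (hK : 1 ≤ K) (hM : MomBound s N p Rr κ (2 * T + 1) P₀ K)
    (hP3 : P + P + P ≤ P₀) (hP' : P + P' ≤ P₀) (R : Reduction J W P) (hR : R.Lists K)
    (σ : ((Fin m × (Fin r → Fin N)) → Bool) → (J → Bool))
    (hσ : ∀ j, Junta 1 (fun x => σ x j)) :
    (∀ z (V : Machine W (Fin P) P'), V.Lists K →
      Ex (vp p) (fun X => nch s (fun X => V.answer T (R.question T z (σ X))) X ^ κ) ≤ Rr ^ κ) ∧
    (∀ z z', Ex (vp p) (fun X => nch s (fun X => R.question T z (σ X) =
      R.question T z' (σ X)) X ^ κ) ≤ Rr ^ κ) ∧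
    (∀ z i, Ex (vp p) (fun X => nch s (fun X => R.question T z (σ X) i) X ^ κ) ≤ Rr ^ κ) ∧
    (∀ z, Ex (vp p) (fun X => nch s (fun X => (R.mach z).answer T (σ X)) X ^ κ) ≤ Rr ^ κ) := by
  have hTT : 2 * T + 1 = T + (T + 1) := by ring
  refine ⟨fun z V hV => ?_, fun z z' => ?_, fun z i => ?_, fun z => ?_⟩
  · refine mom_comp hp0 hp1 hM σ hσ (seqM (R.mach z) (R.ask z) (stop V T) T) (by omega)
      (seq_lists (hR z) (stop_lists hV)) _ (fun v => V.accept v.2) (fun X => ?_)
    rw [hTT, seq_result _ _ _ T (σ X) hT (T + 1), stop_result]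
    rfl
  · -- the product machine
    obtain ⟨M2, hM2⟩ : ∃ M2, M2 = prodM (R.mach z) (R.mach z') := ⟨_, rfl⟩
    have hσ2 : ∀ j, Junta 1 (fun x => (fun X => Sum.elim (σ X) (σ X) : _ → (J ⊕ J → Bool)) x j) := by
      rintro (j | j)
      · exact hσ j
      · exact hσ j
    obtain ⟨ask2, hask2⟩ : ∃ ask2 : Fin (P + P) → (prodM (R.mach z) (R.mach z')).Q → Option W,
        ask2 = Fin.addCases
          (fun p q => Sum.elim (fun q => some (R.ask z p q)) (fun _ => none) q)
          (fun p q => Sum.elim (fun _ => none) (fun q => some (R.ask z' p q)) q) := ⟨_, rfl⟩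
    have hw1 : ∀ (x : J → Bool) (p : Fin P),
        wordsOf (prodM (R.mach z) (R.mach z')) ask2 T (Sum.elim x x) (Fin.castAdd P p) =
        some (R.question T z x p) := by
      intro x p
      show ask2 (Fin.castAdd P p) _ = _
      rw [(prod_run (R.mach z) (R.mach z') x T).1 p, hask2]
      beta_reduce
      rw [Fin.addCases_left]
      rfl
    have hw2 : ∀ (x : J → Bool) (p : Fin P),
        wordsOf (prodM (R.mach z) (R.mach z')) ask2 T (Sum.elim x x) (Fin.natAdd P p) =
        some (R.question T z' x p) := by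
      intro x p
      show ask2 (Fin.natAdd P p) _ = _
      rw [(prod_run (R.mach z) (R.mach z') x T).2.1 p, hask2]
      beta_reduce
      rw [Fin.addCases_right]
      rfl
    refine mom_comp hp0 hp1 hM (fun X => Sum.elim (σ X) (σ X)) hσ2
      (seqM (prodM (R.mach z) (R.mach z')) ask2 (stop (cmpM (Option W) P) 2) T) (by omega)
      (seq_lists (prod_lists (hR z) (hR z')) (stop_lists (cmp_lists _ _ _ hK)))
      _ (fun v => v.2.2 = false) (fun X => ?_)
    rw [hTT, seq_result _ _ _ T (Sum.elim (σ X) (σ X)) hT (T + 1),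
      show T + 1 = 2 + (T - 1) by omega, stop_result, cmp_result]
    dsimp only
    rw [eq_iff_iff, decide_eq_false_iff_not]
    push Not
    constructor
    · intro h p
      rw [hw1, hw2, h]
    · intro h
      funext p
      have := h p
      rw [hw1, hw2] at this
      exact (Option.some_injective _ this).symm
  · refine mom_comp hp0 hp1 hM σ hσ (seqM (R.mach z) (R.ask z) (idleM W i) T) (by omega)
      (seq_lists (hR z) (fun q => by simp)) _
      (fun v => v.2.getD (R.ask z i (R.mach z |>.start i))) (fun X => ?_)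
    rw [hTT, seq_result _ _ _ T (σ X) hT (T + 1), idle_result]
    rfl
  · refine mom_comp hp0 hp1 hM σ hσ (stop (R.mach z) T) (by omega)
      (stop_lists (hR z)) _ (fun v => (R.mach z).accept v) (fun X => ?_)
    rw [hTT, stop_result]
    rfl

end Bounds

end Pool.Agent.W980.Esy
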