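import Mathlib
import Pool.Agent.W980.Esy.Defs
import Pool.Agent.W964.Pram.Ip.Check

/-!
The disjoint pair (satisfiable, unsatisfiable), in which the second set has no short proofs, is
hard with one question.
-/

set_option autoImplicit false

namespace Pool.Agent.W980.Esy

open Finset SmallDepth
open Pool.Agent.W964.Wd

variable {n M P : ℕ}

/-- The machine that copies every bit of the input into the local memory of one processor. -/
def copyMachine {J : Type} (e : Fin P → J) (b : Bool) : Machine Bool J P where
  Q := Fin P ⊕ Bool
  A := Unit
  V := Bool
  word := id
  blank := b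
  start := Sum.inl
  query := fun q => q.elim (fun p => [Sum.inl (e p)]) (fun _ => [])
  test := fun _ _ => true
  next := fun q o => q.elim (fun _ => Sum.inr ((o.map (fun c => c.2)).getD false)) Sum.inr
  write := fun _ => none
  out := Sum.inr ()
  accept := id

/-- The reduction that asks the input. -/
def copyReduction {J : Type} (e : Fin P → J) : Reduction J Bool P where
  mach := fun z => copyMachine e (z.headD false)
  ask := fun _ _ q => q.elim (fun _ => false) id

/-- The machine that checks the assignment `α`, for strings of `P` bits that code the clauses. -/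
def verMachine (e : Fin M × Fin n × Bool → Fin P) (α : Fin n → Bool) :
    Machine Bool (Fin P) M where
  Q := Fin M ⊕ Bool
  A := Unit
  V := Bool
  word := id
  blank := true
  start := Sum.inl
  query := fun q => q.elim (fun p => (List.finRange n).map (fun v => Sum.inl (e (p, v, α v))))
    (fun _ => [])
  test := fun _ v => v
  next := fun q o => q.elim (fun _ => Sum.inr o.isSome) (fun _ => Sum.inr true)
  write := fun q => q.elim (fun _ => none) (fun b => if b = true then none else
    some (Sum.inr (), false))
  out := Sum.inr ()
  accept := id

lemma copy_lists {J : Type} (e : Fin P → J) (b : Bool) : (copyMachine e b).Lists 1 := by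
  rintro (p | b)
  · exact le_rfl
  · exact Nat.zero_le _

lemma ver_lists (e : Fin M × Fin n × Bool → Fin P) (α : Fin n → Bool) :
    (verMachine e α).Lists n := by
  rintro (p | b)
  · show ((List.finRange n).map (fun v => (Sum.inl (e (p, v, α v)) : Fin P ⊕ Unit))).length ≤ n
    simp
  · show ([] : List (Fin P ⊕ Unit)).length ≤ n
    simp

lemma copy_state {J : Type} (e : Fin P → J) (b : Bool) (x : J → Bool) (p : Fin P) :
    ((copyMachine e b).run x 1).1 p = Sum.inr (x (e p)) := rfl

lemma copy_answer {J : Type} (e : Fin P → J) (b : Bool) (x : J → Bool) :
    (copyMachine e b).answer 1 x = b := by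
  have h : ((copyMachine e b).run x 1).2 (Sum.inr ()) =
      (((List.finRange P).findSome? (fun _ => (none : Option Bool))).getD b) := rfl
  have h2 : (List.finRange P).findSome? (fun _ => (none : Option Bool)) = none := by
    rw [List.findSome?_eq_none_iff]
    intros; rfl
  rw [h2] at h
  exact h

lemma ver_find (e : Fin M × Fin n × Bool → Fin P) (α : Fin n → Bool) (y : Fin P → Bool)
    (p : Fin M) :
    ((verMachine e α).find (Sum.inl p) (Sum.elim (fun j => y j) (fun _ => true))).isSome = true ↔
      ∃ v, y (e (p, v, α v)) = true := by
  show ((List.map (fun v => (Sum.inl (e (p, v, α v)) : Fin P ⊕ Unit))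
    (List.finRange n)).findSome? (fun c => if (Sum.elim (fun j => y j) (fun _ => true) c : Bool)
      = true then some (c, (Sum.elim (fun j => y j) (fun _ => true) c : Bool)) else none)).isSome
      = true ↔ _
  rw [List.findSome?_isSome_iff]
  constructor
  · rintro ⟨c, hc, h⟩
    obtain ⟨v, _, rfl⟩ := List.mem_map.1 hc
    refine ⟨v, ?_⟩
    by_contra hne
    simp [hne] at h
  · rintro ⟨v, hv⟩
    refine ⟨Sum.inl (e (p, v, α v)), List.mem_map.2 ⟨v, List.mem_finRange v, rfl⟩, ?_⟩
    simp [hv]

lemma ver_answer (e : Fin M × Fin n × Bool → Fin P) (α : Fin n → Bool) (y : Fin P → Bool) :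
    (verMachine e α).answer 1 y = true ↔ Models (fun j => y (e j)) α := by
  classical
  have hst : ∀ p, ((verMachine e α).run y (0 + 1)).1 p =
      Sum.inr ((verMachine e α).find (Sum.inl p)
        (Sum.elim (fun j => y j) (fun _ => true))).isSome := fun p => rfl
  have hwr : ∀ p, (verMachine e α).wr (Sum.inr ())
      (((verMachine e α).run y (0 + 1)).1 p) =
      (if (∃ v, y (e (p, v, α v)) = true) then none else some false : Option Bool) := by
    intro p
    rw [hst p]
    have h1 := ver_find e α y p
    cases h2 : ((verMachine e α).find (Sum.inl p)
      (Sum.elim (fun j => y j) (fun _ => true))).isSome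
    · rw [if_neg (fun h => by rw [← h1, h2] at h; cases h)]
      unfold Machine.wr
      exact if_pos rfl
    · rw [if_pos (h1.1 h2)]
      rfl
  have hmem : (verMachine e α).answer 1 y =
      (((List.finRange M).findSome? (fun p =>
        (if (∃ v, y (e (p, v, α v)) = true) then none else some false : Option Bool))).getD
          true) :=
    congrArg (fun f : Fin M → Option Bool => ((List.finRange M).findSome? f).getD true)
      (funext hwr)
  rw [hmem]
  constructor
  · intro h p
    by_contra hne
    have h3 : ((List.finRange M).findSome? (fun p =>
        (if (∃ v, y (e (p, v, α v)) = true) then none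
        else some false : Option Bool))) = some false := by
      cases h4 : ((List.finRange M).findSome? (fun p =>
        (if (∃ v, y (e (p, v, α v)) = true) then none else some false : Option Bool))) with
      | none =>
        rw [List.findSome?_eq_none_iff] at h4
        have := h4 p (List.mem_finRange p)
        rw [if_neg hne] at this
        cases this
      | some b =>
        obtain ⟨p', _, h5⟩ := List.exists_of_findSome?_eq_some h4
        split_ifs at h5
        rw [← Option.some.inj h5]
    rw [h3] at h
    cases h
  · intro h
    have h3 : ((List.finRange M).findSome? (fun p =>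
        (if (∃ v, y (e (p, v, α v)) = true) then none
        else some false : Option Bool))) = none := by
      rw [List.findSome?_eq_none_iff]
      intro p _
      rw [if_pos (h p)]
    rw [h3]
    rfl

/-- There is a set with `n`-bit proofs that are checked in one step such that satisfiability
reduces with one question and one step to every set that contains it and is disjoint from its
complement. -/
theorem contrast (n M : ℕ) : ∃ (A : Set (Fin (M * (n * 2)) → Bool))
    (R : Reduction (Fin M × Fin n × Bool) Bool (M * (n * 2))),
    HasProofs M 1 n n A ∧ R.Lists 1 ∧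
      ∀ S, A ⊆ S → Disjoint S Aᶜ → ∀ x, (R.value 1 1 S x = true ↔ ∃ α, Models x α) := by
  classical
  have e0 : Fin M × Fin n × Bool ≃ Fin (M * (n * 2)) :=
    Fintype.equivFinOfCardEq (by simp)
  refine ⟨{y | ∃ α, Models (fun j => y (e0 j)) α}, copyReduction (fun p => e0.symm p),
    ⟨fun α => verMachine e0 α, fun α => ver_lists _ α, fun y => ?_⟩,
    fun z => copy_lists _ _, ?_⟩
  · show (∃ α, Models (fun j => y (e0 j)) α) ↔ _
    exact exists_congr (fun α => (ver_answer _ α y).symm)
  · intro S hS1 hS2 x
    have hS : S = {y | ∃ α, Models (fun j => y (e0 j)) α} := by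
      apply Set.Subset.antisymm _ hS1
      intro y hy
      by_contra hne
      exact Set.disjoint_left.1 hS2 hy hne
    have h1 : (copyReduction (fun p => e0.symm p)).value 1 1 S x =
        decide ((copyReduction (fun p => e0.symm p)).question 1 [] x ∈ S) :=
      copy_answer _ _ x
    have h2 : (copyReduction (fun p => e0.symm p)).question 1 [] x = fun p => x (e0.symm p) := by
      funext p
      rfl
    rw [h1, h2, hS]
    simp only [Set.mem_ofPred_eq, decide_eq_true_eq, Equiv.symm_apply_apply]

end Pool.Agent.W980.Esy
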