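import Mathlib
import Pool.Agent.W980.Esy.Mach

/-!
The theorem for fixed parameters.
-/

set_option autoImplicit false

namespace Pool.Agent.W980.Esy

open Finset H568R2 H592R3
open Pool.Agent.W964.Wd (Machine)
open Pool.Agent.W964.Pram (nch nch_nonneg)

/-- The lists of at most `k` bits. -/
abbrev Lk (k : ℕ) : Type := (i : Fin (k + 1)) × (Fin i.val → Bool)

/-- The list. -/
def toL {k : ℕ} (z : Lk k) : List Bool := List.ofFn z.2

lemma toL_surj {k : ℕ} (z : List Bool) (h : z.length ≤ k) : ∃ z' : Lk k, toL z' = z := by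
  refine ⟨⟨⟨z.length, by omega⟩, fun i => z.get i⟩, ?_⟩
  unfold toL
  exact List.ofFn_get z

lemma card_Lk (k : ℕ) : Fintype.card (Lk k) ≤ 2 ^ (k + 1) := by
  have h1 : Fintype.card (Lk k) = ∑ i : Fin (k + 1), 2 ^ i.val := by
    rw [Fintype.card_sigma]
    refine Finset.sum_congr rfl fun i _ => ?_
    rw [Fintype.card_fun, Fintype.card_fin, Fintype.card_bool]
  rw [h1, Fin.sum_univ_eq_sum_range (fun i => 2 ^ i) (k + 1)]
  have h2 := Nat.geomSum_eq (le_refl 2) (k + 1)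
  rw [h2]
  simp

lemma answers_eq {J W : Type} {P : ℕ} {𝒳 : Type} (R : Reduction J W P) (T : ℕ) (S : Set (Fin P → W))
    (σ : 𝒳 → (J → Bool)) (X : 𝒳) (i : ℕ) :
    R.answers T S (σ X) i = ansL (fun z X => R.question T z (σ X)) S X i := by
  induction i with
  | zero => rfl
  | succ i ih =>
    show R.answers T S (σ X) i ++ [_] = ansL _ S X i ++ [_]
    rw [ih]

theorem esy_fixed {m r N : ℕ} {J W : Type} {P : ℕ} (hN : 1 ≤ N) (s : Fin m → Fin r → Fin m)
    {p Rr τ lam : ℝ} (hp0 : 0 < p) (hp1 : p ≤ 1) (hτ : 0 < τ) (hlam : 0 < lam)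
    {κ T P₀ P' K k g : ℕ} (hT : 1 ≤ T) (hK : 1 ≤ K)
    (hM : MomBound s N p Rr κ (2 * T + 1) P₀ K) (hP3 : P + P + P ≤ P₀) (hP' : P + P' ≤ P₀)
    (R : Reduction J W P) (hR : R.Lists K)
    (A B : Set (Fin P → W)) (hAB : Disjoint A B) (hA : HasProofs P' T g K A)
    (hB : HasProofs P' T g K B)
    (σ : ((Fin m × (Fin r → Fin N)) → Bool) → (J → Bool))
    (hσ : ∀ j, Junta 1 (fun x => σ x j))
    (P0 : (Fin m → Fin N) → ((Fin m × (Fin r → Fin N)) → Bool) → Prop)
    (hP : ∀ a, Ex (vp p) (fun X => ind (¬ P0 a X)) ≤ 1 / 2)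
    (hsmall : ((((2 ^ (k + 1) * 2 ^ (k + 1) + (2 ^ (k + 1) * P + 2 ^ (k + 1)) : ℕ) : ℝ)) +
      ((2 ^ (k + 1) * (2 ^ g * 2) : ℕ) : ℝ)) * (Rr / τ) ^ κ +
      (1 / τ) * ((N : ℝ) ^ m * ((1 / p) ^ m *
        (((2 ^ (k + 1) * (2 ^ g * 2) : ℕ) : ℝ) * (Rr / τ) ^ κ))) < 1 / 3)
    (hRτ : 0 ≤ Rr / τ)
    (hlam2 : 4 * τ * (N : ℝ) ^ m ≤ lam ^ 2)
    (hfin : k * (4 * τ + 2 * lam) + (k * k) * (2 * τ) + τ < (N : ℝ) ^ m / 4) :
    ∃ X a, P0 a X ∧ ∃ S : Set (Fin P → W), A ⊆ S ∧ Disjoint S B ∧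
      R.value T k S (σ X) = R.value T k S (σ (pl s a X)) := by
  classical
  obtain ⟨VA, hVA, hVA2⟩ := hA
  obtain ⟨VB, hVB, hVB2⟩ := hB
  obtain ⟨b1, b2, b3, b4⟩ := red_bounds hp0.le hp1 hT hK hM hP3 hP' R hR σ hσ
  have b0 : 0 ≤ Rr ^ κ := by
    refine le_trans ?_ (b4 [])
    exact Ex_nonneg (vp_nonneg hp0.le hp1) (fun X => pow_nonneg (nch_nonneg s _ X) κ)
  obtain ⟨g0, hg0⟩ : ∃ g0 : ((Lk k × Lk k) ⊕ ((Lk k × Fin P) ⊕ Lk k)) →
      ((Fin m × (Fin r → Fin N)) → Bool) → ℝ, g0 = Sum.elim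
      (fun z X => nch s (fun X => R.question T (toL z.1) (σ X) = R.question T (toL z.2) (σ X)) X)
      (Sum.elim (fun z X => nch s (fun X => R.question T (toL z.1) (σ X) z.2) X)
        (fun z X => nch s (fun X => (R.mach (toL z)).answer T (σ X)) X)) := ⟨_, rfl⟩
  obtain ⟨g1, hg1⟩ : ∃ g1 : (Lk k × ((Fin g → Bool) × Bool)) →
      ((Fin m × (Fin r → Fin N)) → Bool) → ℝ, g1 = fun z X =>
      nch s (fun X => (if z.2.2 = true then VA z.2.1 else VB z.2.1).answer T
        (R.question T (toL z.1) (σ X))) X := ⟨_, rfl⟩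
  have hL1 : (Fintype.card (Lk k) : ℝ) ≤ ((2 ^ (k + 1) : ℕ) : ℝ) := by exact_mod_cast card_Lk k
  have hc0 : (Fintype.card ((Lk k × Lk k) ⊕ ((Lk k × Fin P) ⊕ Lk k)) : ℝ) ≤
      ((2 ^ (k + 1) * 2 ^ (k + 1) + (2 ^ (k + 1) * P + 2 ^ (k + 1)) : ℕ) : ℝ) := by
    rw [Fintype.card_sum, Fintype.card_sum, Fintype.card_prod, Fintype.card_prod,
      Fintype.card_fin]
    have := card_Lk k
    exact_mod_cast Nat.add_le_add (Nat.mul_le_mul this this)
      (Nat.add_le_add (Nat.mul_le_mul_right P this) this)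
  have hc1 : (Fintype.card (Lk k × ((Fin g → Bool) × Bool)) : ℝ) ≤
      ((2 ^ (k + 1) * (2 ^ g * 2) : ℕ) : ℝ) := by
    rw [Fintype.card_prod, Fintype.card_prod, Fintype.card_fun, Fintype.card_fin,
      Fintype.card_bool]
    exact_mod_cast Nat.mul_le_mul_right _ (card_Lk k)
  have hρ : 0 ≤ (Rr / τ) ^ κ := pow_nonneg hRτ κ
  obtain ⟨X, hX0, hX1, hX2, hX3⟩ := exists_good hN s hp0 hp1 g0 g1
    (by
      rw [hg0]
      rintro (i | i | i) X <;> simp only [Sum.elim_inl, Sum.elim_inr] <;> exact nch_nonneg s _ X)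
    (by
      rw [hg1]
      intro i X
      exact nch_nonneg s _ X) Rr τ hτ κ
    (by
      rw [hg0]
      rintro (i | i | i)
      · exact b2 _ _
      · exact b3 _ _
      · exact b4 _)
    (by
      rw [hg1]
      rintro ⟨z, π, c⟩
      cases c
      · exact b1 (toL z) (VB π) (hVB π)
      · exact b1 (toL z) (VA π) (hVA π)) P0 hP (by
      refine lt_of_le_of_lt ?_ hsmall
      have hNm : (0 : ℝ) ≤ (N : ℝ) ^ m := by positivity
      have hpm : (0 : ℝ) ≤ (1 / p) ^ m := by positivity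
      have hτ1 : (0 : ℝ) ≤ 1 / τ := by positivity
      gcongr)
  rw [hg0] at hX0
  rw [hg1] at hX1 hX2
  have hVA3 : ∀ u, u ∈ A ↔ ∃ γ, (fun γ u => (VA γ).answer T u) γ u = true := hVA2
  have hVB3 : ∀ u, u ∈ B ↔ ∃ γ, (fun γ u => (VB γ).answer T u) γ u = true := hVB2
  obtain ⟨a, ha, S, hS1, hS2, hS3⟩ := core_run s A B hAB (fun γ u => (VA γ).answer T u)
    (fun γ u => (VB γ).answer T u) hVA3 hVB3
    (fun z X => R.question T z (σ X)) (fun z X => (R.mach z).answer T (σ X)) X k τ lam hτ.le hlam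
    hlam2
    (by
      intro z hz γ
      obtain ⟨z', hz'⟩ := toL_surj z hz.le
      constructor
      · have := hX1 (z', γ, true)
        dsimp only at this
        rw [hz'] at this
        simpa using this
      · have := hX1 (z', γ, false)
        dsimp only at this
        rw [hz'] at this
        simpa using this)
    (by
      intro z z' hz hz'
      obtain ⟨y, hy⟩ := toL_surj z hz.le
      obtain ⟨y', hy'⟩ := toL_surj z' hz'.le
      have := hX0 (Sum.inl (y, y'))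
      simp only [Sum.elim_inl, hy, hy'] at this
      exact this)
    (by
      intro z hz i
      obtain ⟨y, hy⟩ := toL_surj z hz.le
      have := hX0 (Sum.inr (Sum.inl (y, i)))
      simp only [Sum.elim_inl, Sum.elim_inr, hy] at this
      exact this)
    (by
      intro z hz
      obtain ⟨y, hy⟩ := toL_surj z hz.le
      have := hX0 (Sum.inr (Sum.inr y))
      simp only [Sum.elim_inr, hy] at this
      exact this)
    (by
      intro z hz
      obtain ⟨y, hy⟩ := toL_surj z hz.le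
      refine le_trans (cnt_mono ?_) hX2
      rintro a ⟨γ, h | h⟩
      · refine ⟨(y, γ, true), ?_⟩
        dsimp only
        rw [hy]
        simpa using h
      · refine ⟨(y, γ, false), ?_⟩
        dsimp only
        rw [hy]
        simpa using h)
    (fun a => P0 a X) (lt_of_lt_of_le hfin hX3)
  refine ⟨X, a, ha, S, hS1, hS2, ?_⟩
  unfold Reduction.value
  rw [answers_eq R T S σ X k, answers_eq R T S σ (pl s a X) k]
  exact hS3

end Pool.Agent.W980.Esy
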