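import Mathlib
import Pool.Agent.W980.Esy.Fixed
import Pool.Agent.W980.Esy.Arith

/-!
The theorem for constraint satisfaction problems.
-/

set_option autoImplicit false

namespace Pool.Agent.W980.Esy

open Finset H568R2 H592R3
open Pool.Agent.W964.Pram (ar dom dens Vr mom_hard)
open Pool.Agent.W964.Wd (Machine)

theorem esy_csp (ε : ℝ) (hε : 0 < ε) (hε1 : ε ≤ 1) (K : ℕ) :
    ∃ Q : ℕ, 6 ≤ Q ∧ ∃ C : ℝ, 0 < C ∧
    ∀ n T g k w : ℕ, 2 ≤ n → 1 ≤ T → C * (T * Real.log (n + ((g + k : ℕ) : ℝ))) ≤ w → w ≤ n →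
    ∃ b m' : ℕ, 1 ≤ b ∧ 2 ≤ m' ∧
      ar Q * (2 * (3 * (2 * T + 1)) * b) + 1 ≤ w ∧
      Q * m' * (2 * (3 * (2 * T + 1)) * b + 1) ≤ n ∧
      ∃ s : Fin (Q * m') → Fin (ar Q) → Fin (Q * m'), (∀ i, s i 0 = i) ∧
      ∀ (J : Type) (σ : (Vr Q (2 * T + 1) b m' → Bool) → (J → Bool)),
        (∀ j, Junta 1 (fun x => σ x j)) →
      ∀ (P P' : ℕ) (W : Type) (A B : Set (Fin P → W)) (R : Reduction J W P),
        (P : ℝ) ≤ 2 ^ ((1 - ε) * n) → (P' : ℝ) ≤ 2 ^ ((1 - ε) * n) →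
        Disjoint A B → HasProofs P' T g (2 ^ (K * n)) A → HasProofs P' T g (2 ^ (K * n)) B →
        R.Lists (2 ^ (K * n)) →
        ∃ X a, Uniq s a X ∧ ∃ S : Set (Fin P → W), A ⊆ S ∧ Disjoint S B ∧
          R.value T k S (σ X) = R.value T k S (σ (plant (vr s a) univ X)) := by
  obtain ⟨Q, hQ6, _, C', hC', hpar⟩ := mom_hard (ε / 2) (by linarith) (by linarith) K
  obtain ⟨C, hC⟩ : ∃ C : ℝ, C = 48 * C' + 8 / ε := ⟨_, rfl⟩
  have h8ε : 0 < 8 / ε := by positivity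
  have hC0 : 0 < C := by rw [hC]; positivity
  refine ⟨Q, hQ6, C, hC0, ?_⟩
  intro n T g k w hn hT hw hwn
  obtain ⟨G, hG⟩ : ∃ G, G = 512 * (n + g + k + 1) ^ 4 := ⟨_, rfl⟩
  have hnR : (2 : ℝ) ≤ n := by exact_mod_cast hn
  have hTR : (1 : ℝ) ≤ T := by exact_mod_cast hT
  have hgk0 : (0 : ℝ) ≤ ((g + k : ℕ) : ℝ) := Nat.cast_nonneg _
  have hlog : 1 / 2 ≤ Real.log ((n : ℝ) + ((g + k : ℕ) : ℝ)) := by
    have h1 := Real.log_two_gt_d9
    have h2 : Real.log 2 ≤ Real.log ((n : ℝ) + ((g + k : ℕ) : ℝ)) :=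
      Real.log_le_log (by norm_num) (by linarith)
    linarith
  have hTl : 1 / 2 ≤ (T : ℝ) * Real.log ((n : ℝ) + ((g + k : ℕ) : ℝ)) := by
    have := mul_le_mul hTR hlog (by norm_num) (by linarith)
    linarith
  have hwG : C' * (((2 * T + 1 : ℕ) : ℝ) * Real.log (n + G)) ≤ w := by
    have h1 := log_G (n := n) (g := g) (k := k) hn
    rw [← hG] at h1
    have h2 : ((2 * T + 1 : ℕ) : ℝ) ≤ 3 * T := by push_cast; linarith
    have h3 : ((2 * T + 1 : ℕ) : ℝ) * Real.log (n + G) ≤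
        (3 * T) * (16 * Real.log ((n : ℝ) + ((g + k : ℕ) : ℝ))) := by
      apply mul_le_mul h2 h1
      · apply Real.log_nonneg
        have : (0 : ℝ) ≤ G := Nat.cast_nonneg _
        linarith
      · positivity
    calc C' * (((2 * T + 1 : ℕ) : ℝ) * Real.log (n + G)) ≤
        C' * ((3 * T) * (16 * Real.log ((n : ℝ) + ((g + k : ℕ) : ℝ)))) :=
          mul_le_mul_of_nonneg_left h3 hC'.le
      _ = (48 * C') * (T * Real.log ((n : ℝ) + ((g + k : ℕ) : ℝ))) := by ring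
      _ ≤ C * (T * Real.log ((n : ℝ) + ((g + k : ℕ) : ℝ))) := by
          apply mul_le_mul_of_nonneg_right _ (by linarith)
          rw [hC]; linarith
      _ ≤ w := hw
  have hnε : 4 / ε ≤ n := by
    have h1 : (8 / ε) * (1 / 2) ≤ C * (T * Real.log ((n : ℝ) + ((g + k : ℕ) : ℝ))) :=
      mul_le_mul (by rw [hC]; linarith) hTl (by norm_num) hC0.le
    have h2 : (8 / ε) * (1 / 2) = 4 / ε := by ring
    have h3 : (w : ℝ) ≤ n := by exact_mod_cast hwn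
    linarith
  obtain ⟨b, m', κ, hb, hm', hκ, hB2, hgk, hg8, hBw, hQn, hexp, hwb, s, hs, huniq, hmom⟩ :=
    hpar n (2 * T + 1) G w hn (by omega) hwG hwn
  refine ⟨b, m', hb, hm', hBw, hQn, s, hs, ?_⟩
  intro J σ hσ P P' W A B R hP hP' hAB hA hB hR
  obtain ⟨t, ht⟩ : ∃ t, t = 3 * (2 * T + 1) * b := ⟨_, rfl⟩
  have ht32 : 32 ≤ t := by rw [ht]; omega
  have hQm : 1 ≤ Q * m' := Nat.one_le_iff_ne_zero.2 (by positivity)
  -- constants
  obtain ⟨NN, hNN⟩ : ∃ NN : ℝ, NN = (((dom (2 * T + 1) b : ℕ) : ℝ)) ^ (Q * m') := ⟨_, rfl⟩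
  have hdom : 1 ≤ dom (2 * T + 1) b := Nat.one_le_two_pow
  have hNN0 : 0 < NN := by
    rw [hNN]
    have : (0 : ℝ) < ((dom (2 * T + 1) b : ℕ) : ℝ) := by exact_mod_cast hdom
    positivity
  have hdens : dens (2 * T + 1) b = 1 / ((2 : ℝ) ^ t) ^ 3 / 2 := by
    unfold Pool.Agent.W964.Pram.dens; rw [ht]
  have hp0 : 0 < dens (2 * T + 1) b := by rw [hdens]; positivity
  have hp1 : dens (2 * T + 1) b ≤ 1 := by
    rw [hdens]
    have h1 : (1 : ℝ) ≤ ((2 : ℝ) ^ t) ^ 3 := one_le_pow₀ (one_le_pow₀ (by norm_num))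
    have h2 : 1 / ((2 : ℝ) ^ t) ^ 3 ≤ 1 := by
      rw [div_le_one (by positivity)]; exact h1
    linarith
  -- the number of processors
  obtain ⟨P₀, hP₀⟩ : ∃ P₀ : ℕ, P₀ = ⌊(2 : ℝ) ^ ((1 - ε / 2) * n)⌋₊ := ⟨_, rfl⟩
  have h3P : 3 * (2 : ℝ) ^ ((1 - ε) * n) ≤ (2 : ℝ) ^ ((1 - ε / 2) * n) := by
    have h1 : (2 : ℝ) ^ ((1 - ε / 2) * n) = 2 ^ ((1 - ε) * n) * 2 ^ (ε / 2 * n) := by
      rw [← Real.rpow_add (by norm_num)]
      congr 1
      ring
    have h2 : (4 : ℝ) ≤ 2 ^ (ε / 2 * n) := by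
      calc (4 : ℝ) = 2 ^ (2 : ℝ) := by norm_num
        _ ≤ 2 ^ (ε / 2 * n) := by
          apply Real.rpow_le_rpow_of_exponent_le (by norm_num)
          rw [div_le_iff₀ hε] at hnε
          linarith
    rw [h1]
    have h3 : (0 : ℝ) < 2 ^ ((1 - ε) * n) := by positivity
    nlinarith
  have hP1 : P + P + P ≤ P₀ := by
    rw [hP₀]
    apply Nat.le_floor
    push_cast
    linarith
  have hP2 : P + P' ≤ P₀ := by
    rw [hP₀]
    apply Nat.le_floor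
    push_cast
    have h3 : (0 : ℝ) < 2 ^ ((1 - ε) * n) := by positivity
    linarith
  have hPn : P ≤ 2 ^ n := by
    have h1 : (P : ℝ) ≤ 2 ^ (n : ℝ) := by
      refine hP.trans ?_
      apply Real.rpow_le_rpow_of_exponent_le (by norm_num)
      nlinarith
    rw [Real.rpow_natCast] at h1
    exact_mod_cast h1
  have hM : MomBound s (dom (2 * T + 1) b) (dens (2 * T + 1) b) (NN * (4 / 2 ^ t)) κ (2 * T + 1)
      P₀ (2 ^ (K * n)) := by
    intro J' σ' hσ' P'' M hP'' hL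
    have h1 := hmom J' σ' hσ' P'' (toPram M) (by
      have h2 : ((P'' : ℕ) : ℝ) ≤ (P₀ : ℝ) := by exact_mod_cast hP''
      refine h2.trans ?_
      rw [hP₀]
      exact Nat.floor_le (by positivity)) hL
    rw [← ht, ← hNN] at h1
    refine le_trans (le_of_eq ?_) h1
    congr 1
    funext X
    congr 2
    funext X
    exact (toPram_res M (σ' X) (2 * T + 1)).symm
  have hGk : 512 * (k + 1) ^ 4 ≤ G + 1 := by
    rw [hG]
    have : (k + 1) ^ 4 ≤ (n + g + k + 1) ^ 4 := Nat.pow_le_pow_left (by omega) 4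
    omega
  rw [← ht] at hg8 hgk
  have hU := U_large hg8 hGk
  have hGe : g + 2 * k + 4 * n + 20 ≤ G := by
    rw [hG]
    have h1 : n + g + k + 1 ≤ (n + g + k + 1) ^ 4 := Nat.le_self_pow (by norm_num) _
    omega
  have hQn' : Q * m' * (2 * t + 1) ≤ n := by
    refine le_trans (le_of_eq ?_) hQn
    rw [ht]; ring
  obtain ⟨X, a, ha, hS⟩ := esy_fixed hdom s (p := dens (2 * T + 1) b) (Rr := NN * (4 / 2 ^ t))
    (τ := NN / ((2 : ℝ) ^ (t / 8)) ^ 2) (lam := 2 * NN / (2 : ℝ) ^ (t / 8)) hp0 hp1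
    (by positivity) (by positivity) hT Nat.one_le_two_pow hM hP1 hP2 R hR A B hAB hA hB σ hσ
    (fun a X => Uniq s a X) (fun a => by
      refine le_trans (le_of_eq ?_) (huniq a)
      congr 1
      funext X
      by_cases hu : Uniq s a X <;> simp [ind, hu]) (by
      rw [← hNN, hdens]
      exact small hNN0 ht32 hgk hQn' hQm hGe hPn) (by positivity) (by
      rw [← hNN]
      apply le_of_eq
      field_simp
      ring) (by
      rw [← hNN]
      exact fin_small hNN0 hU)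
  exact ⟨X, a, ha, hS⟩

end Pool.Agent.W980.Esy
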