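import Mathlib
import Pool.Agent.W980.Esy.Hard
import Pool.Agent.W964.Pram.Ip.Asym
import Pool.Agent.H592R3.Cnf3

/-!
The theorem for CNF formulas.
-/

set_option autoImplicit false

namespace Pool.Agent.W980.Esy

open Finset H568R2 H592R3 SmallDepth
open Pool.Agent.W964.Pram (ar dom Vr)
open Pool.Agent.W964.Wd (Machine)

theorem esy_cnf (ε : ℝ) (hε : 0 < ε) (K : ℕ) : ∃ C : ℝ, 0 < C ∧
    ∀ n T g k w M : ℕ, 2 ≤ n → 1 ≤ T → C * (T * Real.log (n + g + k)) ≤ w → w ≤ n →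
    n * 2 ^ w ≤ M →
    ∀ (P P' : ℕ) (W : Type) (A B : Set (Fin P → W)) (R : Reduction (Fin M × Fin n × Bool) W P),
      (P : ℝ) ≤ 2 ^ ((1 - ε) * n) → (P' : ℝ) ≤ 2 ^ ((1 - ε) * n) →
      Disjoint A B → HasProofs P' T g (2 ^ (K * n)) A → HasProofs P' T g (2 ^ (K * n)) B →
      R.Lists (2 ^ (K * n)) →
      ∃ S : Set (Fin P → W), A ⊆ S ∧ Disjoint S B ∧
        ∃ x₀ x₁, WidthLe x₀ w ∧ WidthLe x₁ w ∧ (¬ ∃ α, Models x₀ α) ∧ (∃! α, Models x₁ α) ∧
          R.value T k S x₀ = R.value T k S x₁ := by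
  classical
  obtain ⟨ε', hε'⟩ : ∃ ε' : ℝ, ε' = min ε 1 := ⟨_, rfl⟩
  have hε'0 : 0 < ε' := by rw [hε']; exact lt_min hε (by norm_num)
  have hε'1 : ε' ≤ 1 := by rw [hε']; exact min_le_right _ _
  have hε'2 : ε' ≤ ε := by rw [hε']; exact min_le_left _ _
  obtain ⟨Q, hQ6, C, hC, hpar⟩ := esy_csp ε' hε'0 hε'1 K
  refine ⟨C, hC, ?_⟩
  intro n T g k w M hn hT hw hwn hM P P' W A B R hP hP' hAB hA hB hR
  obtain ⟨b, m', hb, hm', hBw, hQn, s, hs, hip⟩ := hpar n T g k w hn hT (by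
    refine le_trans (le_of_eq ?_) hw
    push_cast
    rw [add_assoc]) hwn
  have hℓ2 : 2 ≤ 2 * (3 * (2 * T + 1)) * b := by
    have h1 : 1 ≤ (2 * T + 1) * b := Nat.one_le_iff_ne_zero.2 (by positivity)
    have : 2 * (3 * (2 * T + 1)) * b = 6 * ((2 * T + 1) * b) := by ring
    omega
  -- encoding of the variables
  have hcard1 : Q * m' * (2 * (3 * (2 * T + 1)) * b) ≤ n := by
    refine le_trans ?_ hQn
    exact Nat.mul_le_mul_left _ (by omega)
  obtain ⟨e⟩ : Nonempty ((Fin (Q * m') × Fin (2 * (3 * (2 * T + 1)) * b)) ↪ Fin n) := by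
    apply Function.Embedding.nonempty_of_card_le
    rw [Fintype.card_prod, Fintype.card_fin, Fintype.card_fin, Fintype.card_fin]
    exact hcard1
  obtain ⟨dec⟩ : Nonempty ((Fin (2 * (3 * (2 * T + 1)) * b) → Bool) ≃
      Fin (2 ^ (2 * (3 * (2 * T + 1)) * b))) :=
    ⟨Fintype.equivFinOfCardEq (by simp)⟩
  have hn0 : 0 < n := by omega
  -- encoding of the clauses
  have hcard2 : Q * m' * (2 ^ (2 * (3 * (2 * T + 1)) * b)) ^ (ar Q) + n ≤ M := by
    refine le_trans ?_ hM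
    have h1 : (2 ^ (2 * (3 * (2 * T + 1)) * b)) ^ (ar Q) ≤ 2 ^ w := by
      rw [← pow_mul]
      apply Nat.pow_le_pow_right (by norm_num)
      rw [mul_comm]; omega
    have h2 : 2 * (Q * m') ≤ n := by
      refine le_trans ?_ hcard1
      rw [mul_comm]
      exact Nat.mul_le_mul_left _ hℓ2
    have h3 : 2 ≤ 2 ^ w := by
      calc 2 = 2 ^ 1 := (pow_one 2).symm
        _ ≤ 2 ^ w := Nat.pow_le_pow_right (by norm_num) (by omega)
    have h4 : 2 * (Q * m' * (2 ^ (2 * (3 * (2 * T + 1)) * b)) ^ (ar Q)) ≤ n * 2 ^ w := by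
      calc 2 * (Q * m' * (2 ^ (2 * (3 * (2 * T + 1)) * b)) ^ (ar Q)) =
          (2 * (Q * m')) * (2 ^ (2 * (3 * (2 * T + 1)) * b)) ^ (ar Q) := by ring
        _ ≤ n * 2 ^ w := Nat.mul_le_mul h2 h1
    have h5 : 2 * n ≤ n * 2 ^ w := by
      rw [mul_comm]; exact Nat.mul_le_mul_left _ h3
    omega
  obtain ⟨π, hπ⟩ : ∃ π : Fin M → (Fin (Q * m') × (Fin (ar Q) →
      Fin (2 ^ (2 * (3 * (2 * T + 1)) * b)))) ⊕ Fin n, Function.Surjective π := by
    have : Nonempty ((Fin (Q * m') × (Fin (ar Q) →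
      Fin (2 ^ (2 * (3 * (2 * T + 1)) * b)))) ⊕ Fin n) := ⟨Sum.inr ⟨0, hn0⟩⟩
    obtain ⟨g⟩ : Nonempty (((Fin (Q * m') × (Fin (ar Q) →
      Fin (2 ^ (2 * (3 * (2 * T + 1)) * b)))) ⊕ Fin n) ↪ Fin M) := by
      apply Function.Embedding.nonempty_of_card_le
      rw [Fintype.card_sum, Fintype.card_prod, Fintype.card_fun, Fintype.card_fin,
        Fintype.card_fin, Fintype.card_fin, Fintype.card_fin, Fintype.card_fin]
      exact hcard2
    exact ⟨Function.invFun g, Function.invFun_surjective g.injective⟩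
  have hw2 : 2 ≤ w := by
    have h1 : 1 * 2 ≤ ar Q * (2 * (3 * (2 * T + 1)) * b) :=
      Nat.mul_le_mul (by unfold ar; omega) hℓ2
    omega
  have hwid : ∀ X, WidthLe (cnfOf s e dec ⟨0, hn0⟩ π X) w := fun X =>
    cnfOf_width (by omega) (by omega) X
  have hexp : (2 : ℝ) ^ ((1 - ε) * n) ≤ 2 ^ ((1 - ε') * n) := by
    apply Real.rpow_le_rpow_of_exponent_le (by norm_num)
    exact mul_le_mul_of_nonneg_right (by linarith) (Nat.cast_nonneg n)
  obtain ⟨X, a, hU, S, hS1, hS2, hS3⟩ := hip (Fin M × Fin n × Bool)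
    (fun X => cnfOf s e dec ⟨0, hn0⟩ π X) (cnfOf_junta s e dec ⟨0, hn0⟩ π) P P' W A B R
    (hP.trans hexp) (hP'.trans hexp) hAB hA hB hR
  refine ⟨S, hS1, hS2, _, _, hwid X, hwid (plant (vr s a) univ X), ?_, ?_, hS3⟩
  · intro h
    have h2 := (cnfOf_sat hπ X).1 h
    have h4 : plant (vr s a) (∅ : Finset (Fin (Q * m'))) X = X := by
      funext i
      unfold plant
      simp
    have hQm : 1 ≤ Q * m' := Nat.one_le_iff_ne_zero.2 (by positivity)
    rw [← h4, uniq_sat hU] at h2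
    have h6 : (⟨0, by omega⟩ : Fin (Q * m')) ∈ (univ : Finset (Fin (Q * m'))) :=
      Finset.mem_univ _
    rw [← h2] at h6
    simp at h6
  · obtain ⟨α, hα⟩ := (cnfOf_sat hπ (plant (vr s a) univ X)).2 ((uniq_sat hU univ).2 rfl)
    exact ⟨α, hα, fun β hβ => cnfOf_unique hπ _ (uniq_atMostOne hU univ) β α hβ hα⟩

end Pool.Agent.W980.Esy
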