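import Mathlib
import Pool.Agent.W980.Esy.Cnf

/-!
The asymptotic statements.
-/

set_option autoImplicit false

namespace Pool.Agent.W980.Esy

open Finset H568R2 H592R3 SmallDepth Filter
open Pool.Agent.W964.Pram (ar dom Vr)
open Pool.Agent.W964.Wd (Machine)

lemma log_double (n c : ℕ) (hn : 2 ≤ n) :
    Real.log (n + ((n ^ c : ℕ) : ℝ) + ((n ^ c : ℕ) : ℝ)) ≤
      Real.log (n + ((n ^ (c + 1) : ℕ) : ℝ)) := by
  have h1 : n ^ c + n ^ c ≤ n ^ (c + 1) := by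
    rw [pow_succ]
    calc n ^ c + n ^ c = n ^ c * 2 := by ring
      _ ≤ n ^ c * n := Nat.mul_le_mul_left _ hn
  have h2 : ((n ^ c : ℕ) : ℝ) + ((n ^ c : ℕ) : ℝ) ≤ ((n ^ (c + 1) : ℕ) : ℝ) := by
    exact_mod_cast h1
  have h3 : (2 : ℝ) ≤ n := by exact_mod_cast hn
  have h4 : (0 : ℝ) ≤ ((n ^ c : ℕ) : ℝ) := Nat.cast_nonneg _
  apply Real.log_le_log
  · linarith
  · linarith

theorem esy_asym (δ : ℝ) (hδ : 0 < δ) (hδ2 : δ < 2) (K c : ℕ) (T : ℕ → ℕ)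
    (hT : ∀ n, 1 ≤ T n)
    (hTo : (fun n : ℕ => (T n : ℝ) * Real.log n) =o[atTop] (fun n : ℕ => (n : ℝ))) :
    ∃ w : ℕ → ℕ, (∃ C : ℝ, ∀ n, 2 ≤ n → (w n : ℝ) ≤ C * (T n * Real.log n)) ∧
      ∀ e : ℕ, ∀ᶠ n : ℕ in atTop,
        ∀ (P P' : ℕ) (W : Type) (A B : Set (Fin P → W))
          (R : Reduction (Fin (n * 2 ^ w n) × Fin n × Bool) W P),
        (P : ℝ) ≤ (2 - δ) ^ n * (e * (((n * 2 ^ w n : ℕ) : ℝ)) ^ e) →
        (P' : ℝ) ≤ (2 - δ) ^ n * (e * (((n * 2 ^ w n : ℕ) : ℝ)) ^ e) →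
        Disjoint A B → HasProofs P' (T n) (n ^ c) (2 ^ (K * n)) A →
        HasProofs P' (T n) (n ^ c) (2 ^ (K * n)) B → R.Lists (2 ^ (K * n)) →
        ∃ S : Set (Fin P → W), A ⊆ S ∧ Disjoint S B ∧
          ∃ x₀ x₁, WidthLe x₀ (w n) ∧ WidthLe x₁ (w n) ∧ (¬ ∃ α, Models x₀ α) ∧
            (∃! α, Models x₁ α) ∧ R.value (T n) (n ^ c) S x₀ = R.value (T n) (n ^ c) S x₁ := by
  obtain ⟨ε, hε, has⟩ := Pool.Agent.W964.Pram.asym δ hδ hδ2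
  obtain ⟨C, hC, H⟩ := esy_cnf ε hε K
  obtain ⟨w, hw1, hw2, hw3⟩ := has C hC (c + 1) T hT hTo
  refine ⟨w, hw1, fun e => ?_⟩
  filter_upwards [hw3 e] with n hn P P' W A B R hP hP' hAB hA hB hR
  obtain ⟨hn2, hwn, _, _, hPn⟩ := hn
  refine H n (T n) (n ^ c) (n ^ c) (w n) (n * 2 ^ w n) hn2 (hT n) ?_ (by omega) le_rfl
    P P' W A B R (hP.trans hPn) (hP'.trans hPn) hAB hA hB hR
  refine le_trans ?_ (hw2 n hn2)
  apply mul_le_mul_of_nonneg_left _ hC.le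
  apply mul_le_mul_of_nonneg_left _ (Nat.cast_nonneg _)
  exact log_double n c hn2

/-- One separator for countably many reductions. -/
theorem esy_seq (δ : ℝ) (hδ : 0 < δ) (hδ2 : δ < 2) (K c : ℕ) (T : ℕ → ℕ)
    (hT : ∀ n, 1 ≤ T n)
    (hTo : (fun n : ℕ => (T n : ℝ) * Real.log n) =o[atTop] (fun n : ℕ => (n : ℝ))) :
    ∃ w : ℕ → ℕ, (∃ C : ℝ, ∀ n, 2 ≤ n → (w n : ℝ) ≤ C * (T n * Real.log n)) ∧
      ∀ (e : ℕ) (P P' : ℕ → ℕ) (W : ℕ → Type) (A B : ∀ n, Set (Fin (P n) → W n))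
        (R : ℕ → ∀ n, Reduction (Fin (n * 2 ^ w n) × Fin n × Bool) (W n) (P n)),
        (∀ n, (P n : ℝ) ≤ (2 - δ) ^ n * (e * (((n * 2 ^ w n : ℕ) : ℝ)) ^ e)) →
        (∀ n, (P' n : ℝ) ≤ (2 - δ) ^ n * (e * (((n * 2 ^ w n : ℕ) : ℝ)) ^ e)) →
        (∀ n, Disjoint (A n) (B n)) →
        (∀ n, HasProofs (P' n) (T n) (n ^ c) (2 ^ (K * n)) (A n)) →
        (∀ n, HasProofs (P' n) (T n) (n ^ c) (2 ^ (K * n)) (B n)) →
        (∀ i n, (R i n).Lists (2 ^ (K * n))) →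
        ∃ S : ∀ n, Set (Fin (P n) → W n), (∀ n, A n ⊆ S n ∧ Disjoint (S n) (B n)) ∧
          ∀ i, ∃ᶠ n in atTop, ∃ x₀ x₁, WidthLe x₀ (w n) ∧ WidthLe x₁ (w n) ∧
            (¬ ∃ α, Models x₀ α) ∧ (∃! α, Models x₁ α) ∧
            (R i n).value (T n) (n ^ c) (S n) x₀ = (R i n).value (T n) (n ^ c) (S n) x₁ := by
  classical
  obtain ⟨w, hw1, hw2⟩ := esy_asym δ hδ hδ2 K c T hT hTo
  refine ⟨w, hw1, ?_⟩
  intro e P P' W A B R hP hP' hAB hA hB hR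
  obtain ⟨n₀, hn₀⟩ := eventually_atTop.1 (hw2 e)
  have key : ∀ n, ∃ S : Set (Fin (P n) → W n), (A n ⊆ S ∧ Disjoint S (B n)) ∧
      (n₀ ≤ n → ∃ x₀ x₁, WidthLe x₀ (w n) ∧ WidthLe x₁ (w n) ∧
            (¬ ∃ α, Models x₀ α) ∧ (∃! α, Models x₁ α) ∧
            (R (Nat.unpair n).1 n).value (T n) (n ^ c) S x₀ =
              (R (Nat.unpair n).1 n).value (T n) (n ^ c) S x₁) := by
    intro n
    by_cases hn : n₀ ≤ n
    · obtain ⟨S, h1, h2, h3⟩ := hn₀ n hn (P n) (P' n) (W n) (A n) (B n)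
        (R (Nat.unpair n).1 n) (hP n) (hP' n) (hAB n) (hA n) (hB n) (hR _ n)
      exact ⟨S, ⟨h1, h2⟩, fun _ => h3⟩
    · exact ⟨A n, ⟨Set.Subset.rfl, hAB n⟩, fun h => absurd h hn⟩
  choose S hS1 hS2 using key
  refine ⟨S, hS1, fun i => ?_⟩
  rw [frequently_atTop]
  intro a
  refine ⟨Nat.pair i (max a n₀), ?_, ?_⟩
  · exact le_trans (le_max_left a n₀) (Nat.right_le_pair _ _)
  · have h1 := hS2 (Nat.pair i (max a n₀))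
      (le_trans (le_max_right a n₀) (Nat.right_le_pair _ _))
    rw [Nat.unpair_pair] at h1
    exact h1

end Pool.Agent.W980.Esy
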